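import Mathlib
import Pool.Agent.W2helper24.TQ.Stm

/-!
# Primes of an abelian extension of `ℚ(√-3)` and the local factors of `y² = x³ - 1`
-/

set_option autoImplicit false

namespace Pool.Agent.W2helper73.TQ

open NumberField IsDedekindDomain IsLocalRing Filter Topology Complex
open Pool.Agent.W192.HK Pool.Agent.TH936.CM Pool.Agent.TH936.PU
open Pool.Agent.Y696
open Pool.Agent.W2helper24.TQ (lam Prm psim P_B1 P_B2 P_B3 P_B5 P_C1 DatM AN nmF ptsF facD)
open Pool.Agent.W192.CM (nu)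
open scoped Pointwise

lemma lam_sq : lam ^ 2 = -3 := by
  unfold Pool.Agent.W2helper24.TQ.lam
  linear_combination 4 * omr_sq

lemma cop_six {P : HeightOneSpectrum eis} (h : (6 : eis) ∉ P.asIdeal) :
    IsCoprime P.asIdeal (sp (2 * lam)) := by
  have hpmax : P.asIdeal.IsMaximal := P.isPrime.isMaximal P.ne_bot
  rw [Ideal.isCoprime_iff_sup_eq]
  by_contra hne
  obtain ⟨M, hM, hle⟩ := Ideal.exists_le_maximal _ hne
  have h4 : P.asIdeal = M := hpmax.eq_of_le hM.ne_top (le_sup_left.trans hle)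
  apply h
  have h5 : (2 * lam : eis) ∈ P.asIdeal := by
    rw [h4]
    exact hle (Ideal.mem_sup_right (Ideal.mem_span_singleton_self _))
  have h6 : (6 : eis) = -(lam * (2 * lam)) := by linear_combination 2 * lam_sq
  rw [h6]
  exact P.asIdeal.neg_mem (P.asIdeal.mul_mem_left _ h5)

lemma not_cop_six {P : HeightOneSpectrum eis} (h : (6 : eis) ∈ P.asIdeal) :
    ¬ IsCoprime P.asIdeal (sp (2 * lam)) := by
  intro hc
  apply P.isPrime.ne_top
  rw [← Ideal.isCoprime_iff_sup_eq.1 hc, left_eq_sup, Ideal.span_singleton_le_iff_mem]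
  have h1 : (6 : eis) = 2 * 3 := by norm_num
  rw [h1] at h
  rcases P.isPrime.mem_or_mem h with h2 | h2
  · exact P.asIdeal.mul_mem_right _ h2
  · apply P.asIdeal.mul_mem_left
    apply P.isPrime.mem_of_pow_mem 2
    rw [lam_sq]
    exact P.asIdeal.neg_mem h2

section
variable {F : Type} [Field F] [NumberField F] {ι : eis →+* 𝓞 F} {G : Type} [CommGroup G] [Finite G]
  [MulSemiringAction G (𝓞 F)] {c : eis} {art : (eis ⧸ (sp c : Ideal eis))ˣ →* G}

/-- the residue degree -/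
theorem exists_deg (D : DatM ι G c art) (v : HeightOneSpectrum (𝓞 F)) :
    ∃ f : ℕ, 0 < f ∧ f ∣ Nat.card G ∧
      nK v = Nat.card (eis ⧸ (bel ι v).asIdeal) ^ f := by
  classical
  let _ : Algebra eis (𝓞 F) := ι.toAlgebra
  have halg : ∀ a : eis, algebraMap eis (𝓞 F) a = ι a := fun _ => rfl
  have hcomm : SMulCommClass G eis (𝓞 F) := by
    constructor
    intro g a x
    rw [Algebra.smul_def, Algebra.smul_def, halg, smul_mul', D.fix]
  have hinv : Algebra.IsInvariant eis (𝓞 F) G := ⟨fun b hb => D.inv b hb⟩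
  have hpmax : (bel ι v).asIdeal.IsMaximal := (bel ι v).isPrime.isMaximal (bel ι v).ne_bot
  have hvmax : v.asIdeal.IsMaximal := v.isPrime.isMaximal v.ne_bot
  have hover : v.asIdeal.LiesOver (bel ι v).asIdeal := ⟨rfl⟩
  have hfv : Finite (𝓞 F ⧸ v.asIdeal) := Ideal.finiteQuotientOfFreeOfNeBot v.asIdeal v.ne_bot
  have hfp : Finite (eis ⧸ (bel ι v).asIdeal) := by
    rw [gP_span]
    exact finite_q (gP_ne _)
  let _ : Field (eis ⧸ (bel ι v).asIdeal) := Ideal.Quotient.field _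
  let _ : Field (𝓞 F ⧸ v.asIdeal) := Ideal.Quotient.field _
  let _ : Fintype (eis ⧸ (bel ι v).asIdeal) := Fintype.ofFinite _
  let _ : Fintype (𝓞 F ⧸ v.asIdeal) := Fintype.ofFinite _
  refine ⟨Module.finrank (eis ⧸ (bel ι v).asIdeal) (𝓞 F ⧸ v.asIdeal), Module.finrank_pos, ?_, ?_⟩
  · have h1 := Ideal.Quotient.stabilizerHom_surjective G (bel ι v).asIdeal v.asIdeal
    have h2 : Nat.card ((𝓞 F ⧸ v.asIdeal) ≃ₐ[eis ⧸ (bel ι v).asIdeal] (𝓞 F ⧸ v.asIdeal)) ∣
        Nat.card (MulAction.stabilizer G v.asIdeal) := Subgroup.card_dvd_of_surjective _ h1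
    have h3 : Nat.card (MulAction.stabilizer G v.asIdeal) ∣ Nat.card G :=
      Subgroup.card_subgroup_dvd_card _
    have h4 := IsGalois.card_aut_eq_finrank (eis ⧸ (bel ι v).asIdeal) (𝓞 F ⧸ v.asIdeal)
    rw [h4] at h2
    exact h2.trans h3
  · have h := Module.card_eq_pow_finrank (K := eis ⧸ (bel ι v).asIdeal) (V := 𝓞 F ⧸ v.asIdeal)
    rw [← card_nm, Nat.card_eq_fintype_card, h, Nat.card_eq_fintype_card]

omit [Finite G] in
theorem exists_over (D : DatM ι G c art) (P : HeightOneSpectrum eis) :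
    ∃ v : HeightOneSpectrum (𝓞 F), bel ι v = P := by
  have hprime : Prime (gP P) := by
    rw [← Ideal.span_singleton_prime (gP_ne P)]
    have := P.isPrime
    rwa [gP_span] at this
  have hnu : ¬ IsUnit (ι (gP P)) := by
    intro hun
    obtain ⟨w, hw⟩ := hun.exists_right_inv
    obtain ⟨b, hb⟩ := D.inv w (by
      intro g
      have h4 : ι (gP P) * (g • w) = 1 := by
        rw [← D.fix g (gP P), ← smul_mul', hw, smul_one]
      exact hun.mul_left_cancel (h4.trans hw.symm))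
    apply hprime.not_isUnit
    refine IsUnit.of_mul_eq_one b ?_
    apply ι_inj ι
    rw [map_mul, map_one, hb]
    exact hw
  obtain ⟨M, hM, hzM⟩ := exists_max_ideal_of_mem_nonunits (mem_nonunits_iff.2 hnu)
  refine ⟨⟨M, hM.isPrime, ?_⟩, bel_eq_of ι hzM⟩
  intro hbot
  rw [hbot, Ideal.mem_bot] at hzM
  exact gP_ne P (ι_inj ι (by rw [hzM, map_zero]))

/-- the primes that are not ramified -/
theorem split (D : DatM ι G c art) {P : HeightOneSpectrum eis} (hP : c ∉ P.asIdeal)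
    {u : (eis ⧸ (sp c : Ideal eis))ˣ} (hu : (u : eis ⧸ (sp c : Ideal eis)) = Ideal.Quotient.mk _ (gP P)) :
    (∀ v : HeightOneSpectrum (𝓞 F), bel ι v = P →
      nK v = Nat.card (eis ⧸ P.asIdeal) ^ orderOf (art u)) ∧
    Fintype.card {v : HeightOneSpectrum (𝓞 F) // bel ι v = P} = Nat.card G / orderOf (art u) := by
  classical
  let _ : Algebra eis (𝓞 F) := ι.toAlgebra
  have halg : ∀ a : eis, algebraMap eis (𝓞 F) a = ι a := fun _ => rfl
  have hcomm : SMulCommClass G eis (𝓞 F) := by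
    constructor
    intro g a x
    rw [Algebra.smul_def, Algebra.smul_def, halg, smul_mul', D.fix]
  have hinv : Algebra.IsInvariant eis (𝓞 F) G := ⟨fun b hb => D.inv b hb⟩
  have hpmax : P.asIdeal.IsMaximal := P.isPrime.isMaximal P.ne_bot
  have hfp : Finite (eis ⧸ P.asIdeal) := by
    rw [gP_span]
    exact finite_q (gP_ne _)
  have hprime : Prime (gP P) := by
    rw [← Ideal.span_singleton_prime (gP_ne P)]
    have := P.isPrime
    rwa [gP_span] at this
  have key : ∀ v : HeightOneSpectrum (𝓞 F), bel ι v = P →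
      nK v = Nat.card (eis ⧸ P.asIdeal) ^ orderOf (art u) ∧
      (P.asIdeal.primesOver (𝓞 F)).ncard * orderOf (art u) = Nat.card G := by
    intro v hv
    have hvmax : v.asIdeal.IsMaximal := v.isPrime.isMaximal v.ne_bot
    have hfv : Finite (𝓞 F ⧸ v.asIdeal) := Ideal.finiteQuotientOfFreeOfNeBot v.asIdeal v.ne_bot
    have hover : v.asIdeal.LiesOver P.asIdeal := ⟨by rw [← hv]; rfl⟩
    have hcv : ι c ∉ v.asIdeal := by
      rw [← mem_bel, hv]
      exact hP
    have h5 := Pool.Agent.W164.RC.split_abs G P.asIdeal v.asIdeal (D.unr v hcv) (art u) (by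
      intro x
      have h6 := D.frob (gP P) hprime u hu v ((bel_iff ι).1 hv) x
      rw [gP_span P]
      exact h6)
    refine ⟨?_, h5.2⟩
    rw [← card_nm]
    exact h5.1
  refine ⟨fun v hv => (key v hv).1, ?_⟩
  obtain ⟨v0, hv0⟩ := exists_over D P
  have h6 := (key v0 hv0).2
  have h7 : Fintype.card {v : HeightOneSpectrum (𝓞 F) // bel ι v = P} =
      (P.asIdeal.primesOver (𝓞 F)).ncard := by
    rw [← Nat.card_eq_fintype_card, ← Nat.card_coe_set_eq]
    refine Nat.card_congr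
      { toFun := fun v => ⟨v.1.asIdeal, v.1.isPrime,
          ⟨(congrArg HeightOneSpectrum.asIdeal v.2).symm⟩⟩
        invFun := fun Q => ⟨⟨Q.1, Q.2.1, ?_⟩, ?_⟩
        left_inv := fun v => rfl
        right_inv := fun Q => rfl }
    · have h8 := Q.2.2.over
      intro hbot
      apply P.ne_bot
      rw [h8, hbot, eq_bot_iff]
      intro x hx
      rw [Ideal.mem_comap, Ideal.mem_bot, halg] at hx
      rw [Ideal.mem_bot]
      exact ι_inj ι (by rw [hx, map_zero])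
    · apply HeightOneSpectrum.ext
      exact Q.2.2.over.symm
  rw [h7, ← h6, Nat.mul_div_cancel _ (orderOf_pos _)]

lemma six_iff (w : HeightOneSpectrum (𝓞 F)) :
    (6 : 𝓞 F) ∈ w.asIdeal ↔ (6 : eis) ∈ (bel ι w).asIdeal := by
  rw [mem_bel, map_ofNat]

/-- the coefficients at the primes that do not divide six -/
theorem loc (h1 : P_B1) (h2 : P_B2) (w : HeightOneSpectrum (𝓞 F)) (h6 : (6 : 𝓞 F) ∉ w.asIdeal)
    {f : ℕ} (hf : nK w = Nat.card (eis ⧸ (bel ι w).asIdeal) ^ f) :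
    ((((nmF w : ℤ) - ptsF w : ℤ)) : ℂ) = psim (bel ι w).asIdeal ^ f +
      ((starRingEnd ℂ) (psim (bel ι w).asIdeal)) ^ f ∧
    psim (bel ι w).asIdeal * (starRingEnd ℂ) (psim (bel ι w).asIdeal) =
      (Nat.card (eis ⧸ (bel ι w).asIdeal) : ℂ) := by
  classical
  set P := bel ι w with hP
  have h6P : (6 : eis) ∉ P.asIdeal := fun h => h6 ((six_iff (ι := ι) w).2 h)
  obtain ⟨π, hπ1, hπ2⟩ := h1.2.1 P.asIdeal (cop_six h6P)
  have hpsi : psim P.asIdeal = π := by rw [hπ1]; exact h1.1 π hπ2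
  have hπ0 : π ≠ 0 := by
    rintro rfl
    apply P.ne_bot
    rw [hπ1]
    exact Ideal.span_singleton_eq_bot.2 rfl
  have hprime : Prime π := by
    rw [← Ideal.span_singleton_prime hπ0]
    have := P.isPrime
    rwa [hπ1] at this
  have hvmax : w.asIdeal.IsMaximal := w.isPrime.isMaximal w.ne_bot
  have hfv : Finite (𝓞 F ⧸ w.asIdeal) := Ideal.finiteQuotientOfFreeOfNeBot w.asIdeal w.ne_bot
  let _ : Field (𝓞 F ⧸ w.asIdeal) := Ideal.Quotient.field _
  let _ : Fintype (𝓞 F ⧸ w.asIdeal) := Fintype.ofFinite _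
  set ρ : eis →+* (𝓞 F ⧸ w.asIdeal) := (Ideal.Quotient.mk w.asIdeal).comp ι with hρ
  have hker : ∀ x, ρ x = 0 ↔ π ∣ x := by
    intro x
    rw [hρ, RingHom.comp_apply, Ideal.Quotient.eq_zero_iff_mem, ← mem_bel, ← hP, hπ1,
      Ideal.mem_span_singleton]
  have hk6 : ∀ m : ℕ, m ∣ 6 → ((m : ℕ) : 𝓞 F ⧸ w.asIdeal) ≠ 0 := by
    rintro m ⟨r, hr⟩ h
    apply h6
    have h3 : ((m : ℕ) : 𝓞 F) ∈ w.asIdeal := by
      rw [← Ideal.Quotient.eq_zero_iff_mem, map_natCast]
      exact h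
    have h4 : (6 : 𝓞 F) = (m : ℕ) * (r : ℕ) := by exact_mod_cast hr
    rw [h4]
    exact w.asIdeal.mul_mem_right _ h3
  have hk2 : (2 : 𝓞 F ⧸ w.asIdeal) ≠ 0 := by
    have := hk6 2 (by norm_num)
    exact_mod_cast this
  have hk3 : (3 : 𝓞 F ⧸ w.asIdeal) ≠ 0 := by
    have := hk6 3 (by norm_num)
    exact_mod_cast this
  have hcardP : (Nat.card (eis ⧸ P.asIdeal) : ℂ) = (π : ℂ) * (starRingEnd ℂ) (π : ℂ) := by
    rw [Complex.mul_conj]
    have h4 : ((Nat.card (eis ⧸ P.asIdeal) : ℕ) : ℝ) = Complex.normSq (π : ℂ) := by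
      rw [hπ1]
      exact (lbasic eis om qr).2.2.2.2.1 π
    rw [← h4]
    push_cast
    rfl
  have hcardk : Fintype.card (𝓞 F ⧸ w.asIdeal) = nK w := by
    rw [← Nat.card_eq_fintype_card]
    exact card_nm w
  have hq : ((Fintype.card (𝓞 F ⧸ w.asIdeal) : ℕ) : eis) = (π * cj π) ^ f := by
    apply coe_inj'
    rw [hcardk, hf]
    push_cast
    rw [hcardP, cj_coe]
  have h5 := h2 (𝓞 F ⧸ w.asIdeal) ρ π hprime hπ2 hk2 hk3 hker f hq
  have h5' : ((ptsF w : ℕ) : eis) = ((nmF w : ℕ) : eis) - (π ^ f + (cj π) ^ f) := by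
    have e1 : nmF w = Fintype.card (𝓞 F ⧸ w.asIdeal) := Nat.card_eq_fintype_card
    rw [e1]
    exact h5
  refine ⟨?_, ?_⟩
  · have h7 := congrArg (fun x : eis => (x : ℂ)) h5'
    push_cast at h7 ⊢
    rw [hpsi, h7, cj_coe]
    ring
  · rw [hpsi, hcardP]

/-- the local factor at a prime that does not divide six -/
lemma facD_val (h1 : P_B1) (h2 : P_B2) (w : HeightOneSpectrum (𝓞 F)) (h6 : (6 : 𝓞 F) ∉ w.asIdeal)
    {f : ℕ} (hf : nK w = Nat.card (eis ⧸ (bel ι w).asIdeal) ^ f) (s : ℂ) :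
    facD w s = (1 - (psim (bel ι w).asIdeal * (nm (bel ι w).asIdeal : ℂ) ^ (-s)) ^ f) *
      (1 - ((starRingEnd ℂ) (psim (bel ι w).asIdeal) * (nm (bel ι w).asIdeal : ℂ) ^ (-s)) ^ f) := by
  obtain ⟨h3, h4⟩ := loc (ι := ι) h1 h2 w h6 hf
  unfold Pool.Agent.W2helper24.TQ.facD
  rw [if_neg h6, h3]
  have hn : nmF w = nK w := card_nm w
  have hn0 : ((nmF w : ℕ) : ℂ) ≠ 0 := by
    have h5 := Pool.Agent.H921R2.TatePole.two_le_nm w
    have h : nmF w ≠ 0 := by
      rw [hn]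
      unfold nK
      omega
    exact_mod_cast h
  have e1 : ((nmF w : ℕ) : ℂ) ^ (-s) = ((nm (bel ι w).asIdeal : ℂ) ^ (-s)) ^ f := by
    rw [hn, hf, nm_P]
    push_cast
    rw [← Complex.natCast_cpow_natCast_mul, Complex.cpow_nat_mul]
  have e2 : ((nmF w : ℕ) : ℂ) = (psim (bel ι w).asIdeal *
      (starRingEnd ℂ) (psim (bel ι w).asIdeal)) ^ f := by
    rw [h4, hn, hf]
    push_cast
    rfl
  have e3 : ((nmF w : ℕ) : ℂ) ^ (1 - 2 * s) = (nmF w : ℂ) * ((nmF w : ℂ) ^ (-s)) ^ 2 := by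
    rw [show (1 - 2 * s : ℂ) = 1 + (2 : ℕ) * (-s) by push_cast; ring, Complex.cpow_add _ _ hn0,
      Complex.cpow_one, Complex.cpow_nat_mul]
  rw [e3, e1, e2]
  ring

end

end Pool.Agent.W2helper73.TQ
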