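import Mathlib
import Pool.Agent.W2helper73.TQ.Lf

/-!
# Factorization of the L-function of `y² = x³ - 1`
-/

set_option autoImplicit false

namespace Pool.Agent.W2helper73.TQ

open NumberField IsDedekindDomain IsLocalRing Filter Topology Complex
open Pool.Agent.W192.HK Pool.Agent.TH936.CM Pool.Agent.TH936.PU
open Pool.Agent.Y696
open Pool.Agent.W2helper24.TQ (lam Prm psim P_B1 P_B2 P_B3 P_B5 P_C1 DatM AN nmF ptsF facD)
open Pool.Agent.W192.CM (nu)
open scoped Pointwise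

section
variable {F : Type} [Field F] [NumberField F] {ι : eis →+* 𝓞 F} {G : Type} [CommGroup G] [Finite G]
  [MulSemiringAction G (𝓞 F)] {c : eis} {art : (eis ⧸ (sp c : Ideal eis))ˣ →* G}

omit [Finite G] in
lemma eta_powM (D : DatM ι G c art) (χ : MulChar G ℂ) : ∃ n : ℕ, eta art χ ^ (3 ^ n) = 1 := by
  obtain ⟨n, hn⟩ := D.pgrp
  refine ⟨n, ?_⟩
  ext u
  rw [MulChar.pow_apply_coe, eta_unit, ← map_pow, ← hn, pow_card_eq_one', map_one,
    MulChar.one_apply_coe]

/-- the Artin map is trivial on the units -/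
lemma art_unitM (D : DatM ι G c art) {w : eis} (hw : IsUnit w) {u : (eis ⧸ (sp c : Ideal eis))ˣ}
    (hu : (u : eis ⧸ (sp c : Ideal eis)) = Ideal.Quotient.mk _ w) : art u = 1 := by
  have hPp : (sp 2 : Ideal eis).IsPrime := (Ideal.span_singleton_prime two_ne).2 prime_two
  set P : HeightOneSpectrum eis := ⟨sp 2, hPp, by
    rw [Ne, Ideal.span_singleton_eq_bot]; exact two_ne⟩ with hP
  obtain ⟨v, hv⟩ := exists_over D P
  have h2v : ι 2 ∈ v.asIdeal := by
    rw [← mem_bel, hv]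
    exact Ideal.mem_span_singleton_self 2
  have hcv : ι c ∉ v.asIdeal := by
    intro h
    obtain ⟨a, b, hab⟩ := D.cop2
    apply v.isPrime.ne_top
    rw [Ideal.eq_top_iff_one, ← map_one ι, ← hab, map_add, map_mul, map_mul]
    exact v.asIdeal.add_mem (v.asIdeal.mul_mem_left _ h) (v.asIdeal.mul_mem_left _ h2v)
  obtain ⟨u2, hu2⟩ := (unit_iff (c := c) 2).2 D.cop2.symm
  have hw2 : Prime (w * 2) := by
    rw [← Ideal.span_singleton_prime (mul_ne_zero hw.ne_zero two_ne),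
      Ideal.span_singleton_mul_left_unit hw]
    exact hPp
  have h1 := D.frob 2 prime_two u2 hu2 v h2v
  have h2 := D.frob (w * 2) hw2 (u * u2) (by
    rw [Units.val_mul, hu, hu2, map_mul]) v (by
    rw [map_mul]
    exact v.asIdeal.mul_mem_left _ h2v)
  have h3 : (sp (w * 2) : Ideal eis) = sp 2 := Ideal.span_singleton_mul_left_unit hw 2
  rw [h3] at h2
  apply D.unr v hcv
  intro x
  have h4 := v.asIdeal.sub_mem (h2 ((art u2)⁻¹ • x)) (h1 ((art u2)⁻¹ • x))
  rw [sub_sub_sub_cancel_right, map_mul, mul_smul, smul_inv_smul] at h4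
  exact h4

lemma et_unitM (D : DatM ι G c art) (χ : MulChar G ℂ) (w : eis) (hw : IsUnit w) :
    et (eta art χ) w = 1 := by
  have h1 : IsCoprime w c := by
    obtain ⟨t, ht⟩ := hw.exists_left_inv
    exact ⟨t, 0, by rw [ht, zero_mul, add_zero]⟩
  obtain ⟨u, hu⟩ := (unit_iff w).2 h1
  unfold et
  rw [← hu, eta_unit, art_unitM D hw hu, map_one]

/-- the product over the characters of the factors at `P` -/
noncomputable def RM (art : (eis ⧸ (sp c : Ideal eis))ˣ →* G) [Fintype (MulChar G ℂ)]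
    (P : HeightOneSpectrum eis) (s : ℂ) : ℂ :=
  ∏ χ : MulChar G ℂ,
    ((1 - psim P.asIdeal * eI (eta art χ) P.asIdeal * (nm P.asIdeal : ℂ) ^ (-s))⁻¹ *
    (starRingEnd ℂ) ((1 - psim P.asIdeal * eI (eta art χ) P.asIdeal *
      (nm P.asIdeal : ℂ) ^ (-((starRingEnd ℂ) s)))⁻¹))

omit [Finite G] in
lemma RM_of_c [Fintype (MulChar G ℂ)] {P : HeightOneSpectrum eis}
    (hP : c ∈ P.asIdeal) (s : ℂ) : RM art P s = 1 := by
  unfold RM
  refine Finset.prod_eq_one fun χ _ => ?_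
  have h1 : eI (eta art χ) P.asIdeal = 0 := by
    show et (eta art χ) (gP P) = 0
    rw [et_zero_iff]
    rintro ⟨a, b, hab⟩
    apply P.isPrime.ne_top
    rw [Ideal.eq_top_iff_one, ← hab]
    refine P.asIdeal.add_mem (P.asIdeal.mul_mem_left _ ?_) (P.asIdeal.mul_mem_left _ hP)
    have := Ideal.mem_span_singleton_self (gP P)
    rwa [← sp, ← gP_span] at this
  rw [h1]
  simp

omit [Finite G] in
lemma RM_of_six (hB : P_B1) [Fintype (MulChar G ℂ)] {P : HeightOneSpectrum eis}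
    (hP : (6 : eis) ∈ P.asIdeal) (s : ℂ) : RM art P s = 1 := by
  unfold RM
  refine Finset.prod_eq_one fun χ _ => ?_
  have h1 : psim P.asIdeal = 0 := (hB.2.2.1 _).2 (not_cop_six hP)
  rw [h1]
  simp

omit [Finite G] in
lemma fib_six {P : HeightOneSpectrum eis}
    (hP : (6 : eis) ∈ P.asIdeal) (s : ℂ) :
    ∏ v : {v : HeightOneSpectrum (𝓞 F) // bel ι v = P}, Pool.Agent.W2helper24.TQ.fac v.1 s = 1 := by
  refine Finset.prod_eq_one fun v _ => ?_
  have h3 : (6 : 𝓞 F) ∈ v.1.asIdeal := by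
    rw [six_iff (ι := ι), v.2]
    exact hP
  unfold Pool.Agent.W2helper24.TQ.fac Pool.Agent.W2helper24.TQ.facD
  rw [if_pos h3, inv_one]

/-- the fibre over a prime that does not divide `6c` -/
lemma fib_goodM (h1B : P_B1) (h2B : P_B2) (D : DatM ι G c art) [Fintype (MulChar G ℂ)]
    {P : HeightOneSpectrum eis}
    (hPc : c ∉ P.asIdeal) (hP6 : (6 : eis) ∉ P.asIdeal) {s : ℂ} (hs : 1 < s.re) :
    ∏ v : {v : HeightOneSpectrum (𝓞 F) // bel ι v = P}, Pool.Agent.W2helper24.TQ.fac v.1 s =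
      RM art P s := by
  classical
  have hcop : IsCoprime (gP P) c := by
    rw [cop_iff D.c_ne]
    intro Q hQ h
    apply hPc
    have h1 : P.asIdeal ≤ Q.asIdeal := by
      rw [gP_span, Ideal.span_singleton_le_iff_mem]
      exact h
    have h2 : P.asIdeal = Q.asIdeal :=
      (P.isPrime.isMaximal P.ne_bot).eq_of_le Q.isPrime.ne_top h1
    rw [h2]
    exact (mem_Sc D.c_ne).1 hQ
  obtain ⟨u, hu⟩ := (unit_iff (c := c) (gP P)).2 hcop
  obtain ⟨h1, h2⟩ := split D hPc hu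
  obtain ⟨v0, hv0⟩ := exists_over D P
  have h6v : ∀ v : HeightOneSpectrum (𝓞 F), bel ι v = P → (6 : 𝓞 F) ∉ v.asIdeal := by
    intro v hv
    rw [six_iff (ι := ι), hv]
    exact hP6
  have hpsi : psim P.asIdeal * (starRingEnd ℂ) (psim P.asIdeal) =
      (Nat.card (eis ⧸ P.asIdeal) : ℂ) := by
    obtain ⟨-, h4⟩ := loc (ι := ι) h1B h2B v0 (h6v v0 hv0)
      (f := orderOf (art u)) (by rw [h1 v0 hv0, hv0])
    rw [hv0] at h4
    exact h4
  have hN2 := card_two_le P
  set N := Nat.card (eis ⧸ P.asIdeal) with hN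
  have hN1 : (1 : ℝ) < N := by
    have : (2 : ℝ) ≤ N := by exact_mod_cast hN2
    linarith
  set f := orderOf (art u) with hf
  have hpn : ‖psim P.asIdeal‖ ≤ N := by
    rw [Complex.mul_conj, Complex.normSq_eq_norm_sq] at hpsi
    have h5 : ‖psim P.asIdeal‖ ^ 2 = N := by exact_mod_cast hpsi
    nlinarith [norm_nonneg (psim P.asIdeal)]
  have hyn : ∀ t : ℂ, 1 < t.re → ‖psim P.asIdeal * (nm P.asIdeal : ℂ) ^ (-t)‖ < 1 := by
    intro t ht
    rw [norm_mul, nm_P]
    have h5 : ‖(((N : ℝ)) : ℂ) ^ (-t)‖ = (N : ℝ) ^ (-t.re) := by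
      rw [Complex.norm_cpow_eq_rpow_re_of_pos (by linarith), Complex.neg_re]
    rw [h5]
    calc ‖psim P.asIdeal‖ * (N : ℝ) ^ (-t.re) ≤ (N : ℝ) * (N : ℝ) ^ (-t.re) := by gcongr
      _ = (N : ℝ) ^ (1 - t.re) := by
        rw [sub_eq_add_neg, Real.rpow_add (by linarith), Real.rpow_one]
      _ < 1 := Real.rpow_lt_one_of_one_lt_of_neg hN1 (by linarith)
  -- the left side
  have hL : ∏ v : {v : HeightOneSpectrum (𝓞 F) // bel ι v = P},
        Pool.Agent.W2helper24.TQ.fac v.1 s =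
      ((1 - (psim P.asIdeal * (nm P.asIdeal : ℂ) ^ (-s)) ^ f) ^ (Nat.card G / f))⁻¹ *
      ((1 - ((starRingEnd ℂ) (psim P.asIdeal) * (nm P.asIdeal : ℂ) ^ (-s)) ^ f) ^
        (Nat.card G / f))⁻¹ := by
    have h5 : ∀ v : {v : HeightOneSpectrum (𝓞 F) // bel ι v = P},
        Pool.Agent.W2helper24.TQ.fac v.1 s =
        ((1 - (psim P.asIdeal * (nm P.asIdeal : ℂ) ^ (-s)) ^ f) *
        (1 - ((starRingEnd ℂ) (psim P.asIdeal) * (nm P.asIdeal : ℂ) ^ (-s)) ^ f))⁻¹ := by
      rintro ⟨v, hv⟩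
      have h6 := facD_val (ι := ι) h1B h2B v (h6v v hv) (f := f) (by rw [h1 v hv, hv]) s
      rw [hv] at h6
      unfold Pool.Agent.W2helper24.TQ.fac
      rw [h6]
    rw [Finset.prod_congr rfl fun v _ => h5 v, Finset.prod_const, Finset.card_univ, h2, inv_pow,
      mul_pow, mul_inv]
  rw [hL]
  unfold RM
  rw [Finset.prod_mul_distrib]
  have heI : ∀ χ : MulChar G ℂ, eI (eta art χ) P.asIdeal = χ (art u) := by
    intro χ
    show et (eta art χ) (gP P) = _
    unfold et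
    rw [← hu, eta_unit]
  simp only [heI]
  congr 1
  · rw [Finset.prod_inv_distrib]
    congr 1
    rw [← prod_mc (art u) _ (hyn s hs)]
    refine Finset.prod_congr rfl fun χ _ => ?_
    ring
  · rw [← map_prod, Finset.prod_inv_distrib]
    have h6 : (1 - ((starRingEnd ℂ) (psim P.asIdeal) * (nm P.asIdeal : ℂ) ^ (-s)) ^ f) ^
        (Nat.card G / f) = (starRingEnd ℂ) ((1 - (psim P.asIdeal *
          (nm P.asIdeal : ℂ) ^ (-((starRingEnd ℂ) s))) ^ f) ^ (Nat.card G / f)) := by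
      rw [map_pow, map_sub, map_one, map_pow, map_mul]
      have h7 : (starRingEnd ℂ) ((nm P.asIdeal : ℂ) ^ (-((starRingEnd ℂ) s))) =
          (nm P.asIdeal : ℂ) ^ (-s) := by
        rw [nm_P, Complex.ofReal_natCast, conj_nat_cpow, map_neg, Complex.conj_conj]
      rw [h7]
    rw [h6, map_inv₀]
    congr 2
    rw [← prod_mc (art u) _ (hyn ((starRingEnd ℂ) s) (by rw [Complex.conj_re]; exact hs))]
    refine Finset.prod_congr rfl fun χ _ => ?_
    ring

lemma psim_mul (h1 : P_B1) (I J : Ideal eis) : psim (I * J) = psim I * psim J := h1.2.2.2.1.mul I J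

lemma psim_top (h1 : P_B1) : psim ⊤ = 1 := by
  have e1 : (⊤ : Ideal eis) = sp 1 := by
    rw [eq_comm, Ideal.span_singleton_eq_top]
    exact isUnit_one
  have hP : Prm 1 := by
    refine ⟨1, Or.inl rfl, ?_, ?_, ?_⟩
    · rw [sub_self]
      exact Submodule.zero_mem _
    · rw [Int.cast_one, sub_self]
      exact Submodule.zero_mem _
    · have : (1 : eis) * cj 1 - ((1 : ℤ) : eis) = 0 := by
        apply coe_inj'
        push_cast
        rw [cj_coe]
        simp
      rw [this]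
      exact Submodule.zero_mem _
  rw [e1, h1.1 1 hP]
  rfl

lemma psim_bot (h1 : P_B1) : psim ⊥ = 0 := by
  rw [h1.2.2.1, Ideal.isCoprime_iff_sup_eq, bot_sup_eq]
  intro h
  have h2 : IsUnit (2 * lam : eis) := by rwa [Ideal.span_singleton_eq_top] at h
  have h3 : IsUnit (2 : eis) := isUnit_of_mul_isUnit_left h2
  exact prime_two.not_isUnit h3

/-- the Euler product of the Hecke L-function -/
lemma hp_etaM (h1B : P_B1) {η : MulChar (eis ⧸ (sp c : Ideal eis)) ℂ}
    (hη : ∀ u : eis, IsUnit u → et η u = 1)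
    {z a : ℂ} (hF : HasSum (fun I : Ideal eis => psim I * eI η I * (nm I : ℂ) ^ (-z)) a) :
    HasProd (fun P : HeightOneSpectrum eis =>
      (1 - psim P.asIdeal * eI η P.asIdeal * (nm P.asIdeal : ℂ) ^ (-z))⁻¹) a := by
  have h1 := hasProd_ideal (fun I : Ideal eis => psim I * eI η I * (nm I : ℂ) ^ (-z)) (by
      simp only [psim_bot h1B, zero_mul]) (by
      simp only [psim_top h1B, eI_top hη, nm_top]
      simp) (by
      intro I J
      rw [psim_mul h1B, eI_mul hη, nm_mul]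
      push_cast
      rw [Complex.mul_cpow_ofReal_nonneg (Pool.Agent.Y696.nm_nonneg I)
        (Pool.Agent.Y696.nm_nonneg J)]
      ring) hF.summable
  rw [hF.tsum_eq] at h1
  exact h1

lemma hp_RM (h1B : P_B1) (D : DatM ι G c art) [Fintype (MulChar G ℂ)] {Fx : MulChar G ℂ → ℂ → ℂ}
    (hF : ∀ χ : MulChar G ℂ, ∀ z : ℂ, 3 / 2 < z.re →
      HasSum (fun I : Ideal eis => psim I * eI (eta art χ) I * (nm I : ℂ) ^ (-z)) (Fx χ z))
    {s : ℂ} (hs : 3 / 2 < s.re) :
    HasProd (fun P : HeightOneSpectrum eis => RM art P s)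
      (∏ χ, (Fx χ s * (starRingEnd ℂ) (Fx χ ((starRingEnd ℂ) s)))) := by
  unfold RM
  apply hasProd_prod
  intro χ _
  refine (hp_etaM h1B (et_unitM D χ) (hF χ s hs)).mul ?_
  have h1 := hp_etaM h1B (et_unitM D χ)
    (hF χ ((starRingEnd ℂ) s) (by rw [Complex.conj_re]; exact hs))
  exact h1.map (starRingEnd ℂ) Complex.continuous_conj

/-- the factorization of the local factor -/
lemma hasseM (h1B : P_B1) (h2B : P_B2) (D : DatM ι G c art) (w : HeightOneSpectrum (𝓞 F)) :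
    ∃ x : ℂ, ‖x‖ ≤ Real.sqrt (nK w) ∧ ∀ s : ℂ, facD w s =
      (1 - x * (nK w : ℂ) ^ (-s)) * (1 - (starRingEnd ℂ) x * (nK w : ℂ) ^ (-s)) := by
  by_cases h6 : (6 : 𝓞 F) ∈ w.asIdeal
  · refine ⟨0, by rw [norm_zero]; exact Real.sqrt_nonneg _, fun s => ?_⟩
    unfold Pool.Agent.W2helper24.TQ.facD
    rw [if_pos h6]
    simp
  · obtain ⟨f, -, -, hf⟩ := exists_deg D w
    obtain ⟨-, h4⟩ := loc (ι := ι) h1B h2B w h6 hf
    refine ⟨psim (bel ι w).asIdeal ^ f, ?_, fun s => ?_⟩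
    · have h5 : ‖psim (bel ι w).asIdeal‖ ^ 2 = (Nat.card (eis ⧸ (bel ι w).asIdeal) : ℝ) := by
        rw [Complex.mul_conj, Complex.normSq_eq_norm_sq] at h4
        exact_mod_cast h4
      apply Real.le_sqrt_of_sq_le
      rw [norm_pow, ← pow_mul, mul_comm f 2, pow_mul, h5, hf]
      push_cast
      exact le_rfl
    · rw [facD_val (ι := ι) h1B h2B w h6 hf s, map_pow]
      have e1 : ((nK w : ℕ) : ℂ) ^ (-s) = ((nm (bel ι w).asIdeal : ℂ) ^ (-s)) ^ f := by
        rw [hf, nm_P]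
        push_cast
        rw [← Complex.natCast_cpow_natCast_mul, Complex.cpow_nat_mul]
      rw [e1, mul_pow, mul_pow]

/-- an infinite product of geometric series -/
lemma mult_inv {X : Type*} {u : X → ℂ} {y : X → ℝ} (hy : Summable y) (hu : ∀ w, ‖u w‖ ≤ y w)
    (hy2 : ∀ w, y w ≤ 1 / 2) : Multipliable (fun w => (1 - u w)⁻¹) := by
  have h1 : ∀ w, (1 - u w)⁻¹ = 1 + u w / (1 - u w) := by
    intro w
    have h2 : (1 - u w) ≠ 0 := by
      intro h
      have h3 : u w = 1 := by linear_combination -h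
      have h4 := (hu w).trans (hy2 w)
      rw [h3, norm_one] at h4
      norm_num at h4
    field_simp
    ring
  have h2 : (fun w => (1 - u w)⁻¹) = fun w => 1 + u w / (1 - u w) := funext h1
  rw [h2]
  apply multipliable_one_add_of_summable
  refine Summable.of_nonneg_of_le (fun w => norm_nonneg _) (fun w => ?_) (hy.mul_left 2)
  have h3 := hu w
  have h4 := hy2 w
  have h5 : (1 / 2 : ℝ) ≤ ‖1 - u w‖ := by
    have h6 := norm_sub_norm_le (1 : ℂ) (u w)
    rw [norm_one] at h6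
    linarith
  rw [norm_div, div_le_iff₀ (by linarith)]
  nlinarith [norm_nonneg (u w), norm_nonneg (1 - u w)]

/-- the product of the local factors converges -/
lemma mult_fac (h1B : P_B1) (h2B : P_B2) (D : DatM ι G c art) {s : ℂ} (hs : 3 / 2 < s.re) :
    Multipliable (fun w : HeightOneSpectrum (𝓞 F) => Pool.Agent.W2helper24.TQ.fac w s) := by
  choose x hx1 hx2 using hasseM (F := F) h1B h2B D
  set y : HeightOneSpectrum (𝓞 F) → ℝ := fun w => (nK w : ℝ) ^ (-(s.re - 1 / 2)) with hy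
  have hys : Summable y := Pool.Agent.H921R2.TatePole.nm_summable (K := F) (x := s.re - 1 / 2)
    (by linarith)
  have hq2 : ∀ w : HeightOneSpectrum (𝓞 F), (2 : ℝ) ≤ nK w := fun w => by
    exact_mod_cast Pool.Agent.H921R2.TatePole.two_le_nm w
  have hy2 : ∀ w, y w ≤ 1 / 2 := by
    intro w
    have hq0 : (0 : ℝ) < nK w := by linarith [hq2 w]
    calc y w ≤ (nK w : ℝ) ^ (-1 : ℝ) :=
          Real.rpow_le_rpow_of_exponent_le (by linarith [hq2 w]) (by linarith)
      _ = (nK w : ℝ)⁻¹ := Real.rpow_neg_one _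
      _ ≤ 2⁻¹ := inv_anti₀ (by norm_num) (hq2 w)
      _ = 1 / 2 := by norm_num
  have hb : ∀ (w : HeightOneSpectrum (𝓞 F)) (t : ℂ), ‖t‖ ≤ Real.sqrt (nK w) →
      ‖t * (nK w : ℂ) ^ (-s)‖ ≤ y w := by
    intro w t ht
    have hq0 : (0 : ℝ) < nK w := by linarith [hq2 w]
    have hq0' : 0 < nK w := by exact_mod_cast hq0
    rw [norm_mul, Complex.norm_natCast_cpow_of_pos hq0', Complex.neg_re]
    calc ‖t‖ * (nK w : ℝ) ^ (-s.re) ≤ Real.sqrt (nK w) * (nK w : ℝ) ^ (-s.re) := by gcongr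
      _ = y w := by
        rw [hy, Real.sqrt_eq_rpow, ← Real.rpow_add hq0]
        congr 1
        ring
  have h1 := mult_inv hys (fun w => hb w (x w) (hx1 w)) hy2
  have h2 := mult_inv hys (fun w => hb w ((starRingEnd ℂ) (x w)) (by
    rw [RCLike.norm_conj]
    exact hx1 w)) hy2
  refine (h1.mul h2).congr fun w => ?_
  unfold Pool.Agent.W2helper24.TQ.fac
  rw [hx2 w s, mul_inv]

/-- the factorization of the L-function -/
theorem LF_eq (h1B : P_B1) (h2B : P_B2) (D : DatM ι G c art) [Fintype (MulChar G ℂ)]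
    {Fx : MulChar G ℂ → ℂ → ℂ}
    (hF : ∀ χ : MulChar G ℂ, ∀ z : ℂ, 3 / 2 < z.re →
      HasSum (fun I : Ideal eis => psim I * eI (eta art χ) I * (nm I : ℂ) ^ (-z)) (Fx χ z))
    {s : ℂ} (hs : 3 / 2 < s.re) :
    HasProd (fun w : HeightOneSpectrum (𝓞 F) => Pool.Agent.W2helper24.TQ.fac w s)
      ((∏ P ∈ Sc D.c_ne, ∏ v : {v : HeightOneSpectrum (𝓞 F) // bel ι v = P},
        Pool.Agent.W2helper24.TQ.fac v.1 s) *
      ∏ χ, (Fx χ s * (starRingEnd ℂ) (Fx χ ((starRingEnd ℂ) s)))) := by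
  classical
  have h2 := (mult_fac h1B h2B D hs).hasProd
  have h3 := (Equiv.sigmaFiberEquiv (bel ι)).hasProd_iff.2 h2
  have h4 : HasProd (fun P : HeightOneSpectrum eis =>
      ∏ v : {v : HeightOneSpectrum (𝓞 F) // bel ι v = P}, Pool.Agent.W2helper24.TQ.fac v.1 s)
      (∏' w : HeightOneSpectrum (𝓞 F), Pool.Agent.W2helper24.TQ.fac w s) := by
    refine h3.sigma fun P => ?_
    exact hasProd_fintype _ (.unconditional _)
  have h5 : HasProd (fun P : HeightOneSpectrum eis => if P ∈ Sc D.c_ne then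
      ∏ v : {v : HeightOneSpectrum (𝓞 F) // bel ι v = P}, Pool.Agent.W2helper24.TQ.fac v.1 s else 1)
      (∏ P ∈ Sc D.c_ne, ∏ v : {v : HeightOneSpectrum (𝓞 F) // bel ι v = P},
        Pool.Agent.W2helper24.TQ.fac v.1 s) := by
    have h6 := hasProd_prod_of_ne_finset_one (L := .unconditional _) (s := Sc D.c_ne)
      (f := fun P : HeightOneSpectrum eis => if P ∈ Sc D.c_ne then
        ∏ v : {v : HeightOneSpectrum (𝓞 F) // bel ι v = P},
          Pool.Agent.W2helper24.TQ.fac v.1 s else 1)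
      (fun P hP => if_neg hP)
    rw [Finset.prod_congr rfl (fun P hP => if_pos hP)] at h6
    exact h6
  have h6 := h5.mul (hp_RM h1B D hF (s := s) (by linarith))
  have h7 := h4.unique (h6.congr_fun fun P => by
    by_cases hP : P ∈ Sc D.c_ne
    · rw [if_pos hP, RM_of_c ((mem_Sc D.c_ne).1 hP), mul_one]
    · rw [if_neg hP, one_mul]
      have hPc : c ∉ P.asIdeal := fun h => hP ((mem_Sc D.c_ne).2 h)
      by_cases h6P : (6 : eis) ∈ P.asIdeal
      · rw [RM_of_six h1B h6P, fib_six h6P]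
      · exact fib_goodM h1B h2B D hPc h6P (by linarith))
  rw [← h7]
  exact h2

end

end Pool.Agent.W2helper73.TQ
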