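import Mathlib
import Pool.Agent.W2helper73.TQ.Lg

/-!
# The analytic theorem for `y² = x³ - 1` (piece C1 of the project TQ)
-/

set_option autoImplicit false

namespace Pool.Agent.W2helper73.TQ

open NumberField IsDedekindDomain IsLocalRing Filter Topology Complex
open Pool.Agent.W192.HK Pool.Agent.TH936.CM Pool.Agent.TH936.PU
open Pool.Agent.Y696
open Pool.Agent.W2helper24.TQ (lam Prm psim P_B1 P_B2 P_B3 P_B5 P_C1 DatM AN nmF ptsF facD CurM ecm)
open Pool.Agent.W192.CM (nu)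
open scoped Pointwise PeriodPair

/-! ## The lattice and a place over three -/

/-- existence of the period lattice of `y² = 4 x³ - 4` -/
theorem exists_curM : ∃ (L : PeriodPair) (Ω : ℂ), CurM L Ω := by
  have h0 := hex_g3 1 one_ne_zero
  obtain ⟨Ω, hΩ⟩ := IsAlgClosed.exists_pow_nat_eq ((hex 1 one_ne_zero).g₃ / 4) (n := 6) (by norm_num)
  have hΩ0 : Ω ≠ 0 := by
    rintro rfl
    apply h0
    rw [zero_pow (by norm_num)] at hΩ
    linear_combination (-4) * hΩ
  refine ⟨hex Ω hΩ0, Ω, hex_lat Ω hΩ0, hex_g2 Ω hΩ0, ?_⟩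
  rw [hex_g3_scale hΩ0, hΩ]
  field_simp

/-- there is a place over three -/
lemma exists_over_three : ∃ V : ValuationSubring ℂ, V.valuation (3 : ℂ) < 1 := by
  have h1 : (3 : ℂ)⁻¹ ∉ (integralClosure ℤ ℂ).toSubring := by
    intro h
    have h2 : IsIntegral ℤ ((3 : ℂ)⁻¹) := h
    have h5 : IsIntegral ℤ ((3 : ℚ)⁻¹) := by
      rw [← isIntegral_algebraMap_iff (algebraMap ℚ ℂ).injective]
      simpa using h2
    obtain ⟨y, hy⟩ := IsIntegrallyClosed.isIntegral_iff.mp h5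
    have h6 : (y : ℚ) * 3 = 1 := by
      have : (y : ℚ) = (3 : ℚ)⁻¹ := hy
      rw [this, inv_mul_cancel₀ (by norm_num)]
    have h7 : y * 3 = 1 := by exact_mod_cast h6
    omega
  obtain ⟨V, -, hV⟩ := Subring.exists_le_valuationSubring_of_isIntegrallyClosedIn h1
  refine ⟨V, ?_⟩
  rw [← ValuationSubring.valuation_le_one_iff, not_le, map_inv₀] at hV
  exact (one_lt_inv₀ (zero_lt_iff.mpr ((Valuation.ne_zero_iff _).mpr (by norm_num)))).mp hV

/-! ## Valuations over three -/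

section val

variable {Γ : Type*} [LinearOrderedCommGroupWithZero Γ]

lemma vc_three {v : Valuation ℂ Γ} (hv : v 3 < 1) : vc v 3 < 1 := by
  rw [vc_apply, map_ofNat]
  exact hv

lemma v_two_one {v : Valuation ℂ Γ} (hv : v 3 < 1) : v 2 = 1 := by
  have h1 : (2 : ℂ) = -1 + 3 := by norm_num
  have h2 : v (-1 : ℂ) = 1 := by rw [Valuation.map_neg, map_one]
  rw [h1, Valuation.map_add_eq_of_lt_left, h2]
  rw [h2]
  exact hv

lemma v_lam_lt {v : Valuation ℂ Γ} (hv : v 3 < 1) : v (lam : ℂ) < 1 := by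
  have h1 : (lam : ℂ) ^ 2 = -3 := by
    have h0 := congrArg (fun x : eis => (x : ℂ)) lam_sq
    push_cast at h0
    rw [h0]
    rfl
  have h2 : v (lam : ℂ) ^ 2 < 1 := by
    rw [← map_pow, h1, Valuation.map_neg]
    exact hv
  by_contra h
  exact absurd h2 (not_lt.2 (one_le_pow₀ (not_lt.1 h)))

lemma v_sp_lam {v : Valuation ℂ Γ} (hv : v 3 < 1) {z : eis} (h : z ∈ (sp lam : Ideal eis)) :
    v (z : ℂ) < 1 := by
  rw [Ideal.mem_span_singleton'] at h
  obtain ⟨t, rfl⟩ := h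
  push_cast
  exact v_mul_lt (v_eis t) (v_lam_lt hv)

lemma v_of_neg {v : Valuation ℂ Γ} (hv : v 3 < 1) {π : eis} (h : π + 1 ∈ (sp lam : Ideal eis)) :
    v (π : ℂ) = 1 := by
  have h1 := v_sp_lam hv h
  push_cast at h1
  have h2 : (π : ℂ) = -1 + ((π : ℂ) + 1) := by ring
  have h3 : v (-1 : ℂ) = 1 := by rw [Valuation.map_neg, map_one]
  rw [h2, Valuation.map_add_eq_of_lt_left, h3]
  rw [h3]
  exact h1

/-- odd powers of an element that is congruent to `-1` -/
lemma v_pow_subM {v : Valuation ℂ Γ} (hv : v 3 < 1) {π : eis}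
    (h : π + 1 ∈ (sp lam : Ideal eis)) {f : ℕ} (hf : Odd f) : v ((π : ℂ) ^ f - 1) = 1 := by
  have h1 : π ^ f + 1 ∈ (sp lam : Ideal eis) := by
    have h2 : π + 1 ∣ π ^ f + 1 := by
      have := hf.add_dvd_pow_add_pow π 1
      rwa [one_pow] at this
    exact (sp lam : Ideal eis).mem_of_dvd h2 h
  have h2 := v_sp_lam hv h1
  push_cast at h2
  have h3 : (π : ℂ) ^ f - 1 = -2 + ((π : ℂ) ^ f + 1) := by ring
  have h4 : v (-2 : ℂ) = 1 := by rw [Valuation.map_neg, v_two_one hv]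
  rw [h3, Valuation.map_add_eq_of_lt_left, h4]
  rw [h4]
  exact h2

end val

section
variable {F : Type} [Field F] [NumberField F] {ι : eis →+* 𝓞 F} {G : Type} [CommGroup G] [Finite G]
  [MulSemiringAction G (𝓞 F)] {c : eis} {art : (eis ⧸ (sp c : Ideal eis))ˣ →* G}
  {Γ : Type*} [LinearOrderedCommGroupWithZero Γ]

lemma four_dvd {n : ℤ} (h : (n : eis) ∈ (sp 4 : Ideal eis)) : 4 ∣ n := by
  rw [Ideal.mem_span_singleton'] at h
  obtain ⟨t, ht⟩ := h
  obtain ⟨x, y, rfl⟩ := eis_rep t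
  have h1 := congrArg (fun x : eis => (x : ℂ)) ht
  push_cast at h1
  have hom : ((omr : eis) : ℂ) = om := rfl
  have h40 : ((4 : eis) : ℂ) = 4 := rfl
  rw [hom, h40] at h1
  have h2 := congrArg Complex.im h1
  simp at h2
  have h4 : y = 0 := h2.resolve_right om_im.ne'
  rw [h4] at h1
  have h5 : ((x * 4 : ℤ) : ℂ) = (n : ℂ) := by
    rw [← h1]
    push_cast
    ring
  have h6 : x * 4 = n := by exact_mod_cast h5
  exact ⟨x, by rw [← h6]; ring⟩

omit [Finite G] in
/-- the value of the Hecke character at a prime that divides `c` -/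
lemma v_psim (h1B : P_B1) (D : DatM ι G c art) {P : HeightOneSpectrum eis} (hP : c ∈ P.asIdeal) :
    ∃ π : eis, psim P.asIdeal = π ∧ π + 1 ∈ (sp lam : Ideal eis) ∧ (6 : eis) ∉ P.asIdeal := by
  have h6 : (6 : eis) ∉ P.asIdeal := by
    intro h
    have h1 : (6 : eis) = 2 * 3 := by norm_num
    rw [h1] at h
    rcases P.isPrime.mem_or_mem h with h2 | h2
    · obtain ⟨a, b, hab⟩ := D.cop2
      apply P.isPrime.ne_top
      rw [Ideal.eq_top_iff_one, ← hab]
      exact P.asIdeal.add_mem (P.asIdeal.mul_mem_left _ hP) (P.asIdeal.mul_mem_left _ h2)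
    · obtain ⟨a, b, hab⟩ := D.cop3
      apply P.isPrime.ne_top
      rw [Ideal.eq_top_iff_one, ← hab]
      exact P.asIdeal.add_mem (P.asIdeal.mul_mem_left _ hP) (P.asIdeal.mul_mem_left _ h2)
  obtain ⟨π, hπ1, hπ2⟩ := h1B.2.1 P.asIdeal (cop_six h6)
  have hpsi : psim P.asIdeal = π := by rw [hπ1]; exact h1B.1 π hπ2
  refine ⟨π, hpsi, ?_, h6⟩
  obtain ⟨e, he, -, hl, h4⟩ := hπ2
  rcases he with rfl | rfl
  · exfalso
    -- the residue field has `3` modulo `4` elements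
    have hpmax : P.asIdeal.IsMaximal := P.isPrime.isMaximal P.ne_bot
    have hfin : Finite (eis ⧸ P.asIdeal) := by
      rw [gP_span]
      exact finite_q (gP_ne _)
    let _ : Field (eis ⧸ P.asIdeal) := Ideal.Quotient.field _
    let _ : Fintype (eis ⧸ P.asIdeal) := Fintype.ofFinite _
    have h7 : Fintype.card (eis ⧸ P.asIdeal) % 4 = 3 := by
      by_contra hne
      have h8 := FiniteField.isSquare_neg_one_iff.2 hne
      obtain ⟨r, hr⟩ := h8
      obtain ⟨x, rfl⟩ := Ideal.Quotient.mk_surjective r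
      apply D.good P hP x
      rw [← Ideal.Quotient.eq_zero_iff_mem, map_add, map_pow, map_one, pow_two, ← hr]
      ring
    have h8 : ((Fintype.card (eis ⧸ P.asIdeal) : ℕ) : eis) = π * cj π := by
      apply coe_inj'
      rw [← Nat.card_eq_fintype_card]
      push_cast
      rw [cj_coe, Complex.mul_conj]
      have h9 : ((Nat.card (eis ⧸ P.asIdeal) : ℕ) : ℝ) = Complex.normSq (π : ℂ) := by
        rw [hπ1]
        exact (lbasic eis om qr).2.2.2.2.1 π
      rw [← h9]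
      push_cast
      rfl
    rw [← h8] at h4
    have h10 := four_dvd (n := (Fintype.card (eis ⧸ P.asIdeal) : ℤ) - 1) (by
      push_cast
      push_cast at h4
      exact h4)
    omega
  · have h7 : π + 1 = π - ((-1 : ℤ) : eis) := by
      push_cast
      ring
    rw [h7]
    exact hl

lemma facD_diff (w : HeightOneSpectrum (𝓞 F)) : Differentiable ℂ (facD w) := by
  have hn : ((nmF w : ℕ) : ℂ) ≠ 0 := by
    have h1 : nmF w = nK w := card_nm w
    have := Pool.Agent.H921R2.TatePole.two_le_nm w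
    have h : nmF w ≠ 0 := by rw [h1]; unfold nK; omega
    exact_mod_cast h
  unfold Pool.Agent.W2helper24.TQ.facD
  split_ifs
  · exact differentiable_const _
  · have h1 : Differentiable ℂ (fun s : ℂ => (nmF w : ℂ) ^ (-s)) := by
      intro z
      exact (differentiableAt_id.neg).const_cpow (Or.inl hn)
    have h2 : Differentiable ℂ (fun s : ℂ => (nmF w : ℂ) ^ (1 - 2 * s)) := by
      intro z
      exact ((differentiableAt_const _).sub ((differentiableAt_const _).mul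
        differentiableAt_id)).const_cpow (Or.inl hn)
    exact ((differentiable_const _).sub ((differentiable_const _).mul h1)).add h2

/-- the local factors above `c` are units at one -/
lemma v_facD (h1B : P_B1) (h2B : P_B2) (D : DatM ι G c art) {P : HeightOneSpectrum eis}
    (hP : c ∈ P.asIdeal) (w : HeightOneSpectrum (𝓞 F)) (hw : bel ι w = P) {v : Valuation ℂ Γ}
    (hv : v 3 < 1) : v (facD w 1) = 1 := by
  obtain ⟨π, hπ, hπ2, h6⟩ := v_psim h1B D hP
  obtain ⟨f, hf0, hfG, hf⟩ := exists_deg D w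
  have hfo : Odd f := by
    obtain ⟨n, hn⟩ := D.pgrp
    rw [hn] at hfG
    exact Odd.of_dvd_nat (Odd.pow (by decide)) hfG
  have h6w : (6 : 𝓞 F) ∉ w.asIdeal := by
    rw [six_iff (ι := ι), hw]
    exact h6
  have h1 := facD_val (ι := ι) h1B h2B w h6w hf 1
  obtain ⟨-, h5⟩ := loc (ι := ι) h1B h2B w h6w hf
  rw [hw] at h1 h5
  rw [hπ] at h5 h1
  have k3 : v (π : ℂ) = 1 := v_of_neg hv hπ2
  have k4 := v_of_neg (vc_three hv) hπ2
  have hπ0 : (π : ℂ) ≠ 0 := ne_of_v k3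
  have hπc0 : (starRingEnd ℂ) (π : ℂ) ≠ 0 := (map_ne_zero _).2 hπ0
  have hnm : (nm P.asIdeal : ℂ) = (π : ℂ) * (starRingEnd ℂ) (π : ℂ) := by
    rw [h5, nm_P]
    push_cast
    rfl
  have h8 : facD w 1 = (((starRingEnd ℂ) (π : ℂ)) ^ f - 1) * ((π : ℂ) ^ f - 1) /
      (((starRingEnd ℂ) (π : ℂ)) ^ f * (π : ℂ) ^ f) := by
    rw [h1, Complex.cpow_neg_one, hnm]
    have e1 : (π : ℂ) * ((π : ℂ) * (starRingEnd ℂ) (π : ℂ))⁻¹ = ((starRingEnd ℂ) (π : ℂ))⁻¹ := by
      field_simp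
    have e2 : (starRingEnd ℂ) (π : ℂ) * ((π : ℂ) * (starRingEnd ℂ) (π : ℂ))⁻¹ = (π : ℂ)⁻¹ := by
      field_simp
    rw [e1, e2, inv_pow, inv_pow]
    field_simp
  have k1 := v_pow_subM hv hπ2 hfo
  have k2 := v_pow_subM (vc_three hv) hπ2 hfo
  rw [vc_apply, map_sub, map_pow, map_one] at k2
  rw [vc_apply] at k4
  rw [h8, map_div₀, map_mul, map_mul, map_pow, map_pow, k1, k2, k3, k4]
  simp

/-- the values of the Hecke L-functions are units -/
lemma v_FM (h5B : P_B5) (D : DatM ι G c art) (χ : MulChar G ℂ) {L : PeriodPair} {Ω : ℂ}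
    (hC : CurM L Ω) {Γ : Type} [LinearOrderedCommGroupWithZero Γ] {v : Valuation ℂ Γ}
    (hv : v 3 < 1) {a : ℂ}
    (ha : Tendsto (SS (ecm (eta art χ))) (𝓝[>] 0) (𝓝 ((nu eis : ℂ) * (starRingEnd ℂ) a))) :
    v ((starRingEnd ℂ) a / Ω) = 1 :=
  h5B L Ω hC Γ v hv c (eta art χ) D.c_ne D.cop2 D.cop3 D.good (et_unitM D χ) (eta_powM D χ) a ha

lemma v_FFM (h5B : P_B5) (D : DatM ι G c art) (χ : MulChar G ℂ) {L : PeriodPair} {Ω : ℂ}
    (hC : CurM L Ω) {Γ : Type} [LinearOrderedCommGroupWithZero Γ] {v : Valuation ℂ Γ}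
    (hv : v 3 < 1) {a : ℂ}
    (ha : Tendsto (SS (ecm (eta art χ))) (𝓝[>] 0) (𝓝 ((nu eis : ℂ) * (starRingEnd ℂ) a))) :
    v (a * (starRingEnd ℂ) a / (Ω * (starRingEnd ℂ) Ω)) = 1 := by
  have h1 := v_FM h5B D χ hC hv ha
  have h2 := v_FM h5B D χ hC (vc_three hv) ha
  rw [vc_apply, map_div₀, Complex.conj_conj] at h2
  have h3 : a * (starRingEnd ℂ) a / (Ω * (starRingEnd ℂ) Ω) =
      (a / (starRingEnd ℂ) Ω) * ((starRingEnd ℂ) a / Ω) := by
    rw [div_mul_div_comm, mul_comm Ω]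
  rw [h3, map_mul, h1, h2, one_mul]

/-- the analytic theorem -/
theorem analytic_mainM (h1B : P_B1) (h2B : P_B2) (h3B : P_B3) (h5B : P_B5) (D : DatM ι G c art) :
    AN (F := F) (Nat.card G) := by
  classical
  have hfinM : Finite (MulChar G ℂ) := inferInstance
  have : Fintype (MulChar G ℂ) := Fintype.ofFinite _
  have hH := fun χ : MulChar G ℂ => h3B c (eta art χ) D.c_ne D.cop2 D.cop3 (et_unitM D χ)
  choose Fx hFd hFs hFl using hH
  have hcard : Fintype.card (MulChar G ℂ) = Nat.card G := by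
    rw [← Nat.card_eq_fintype_card, MulChar.card_eq_card_units_of_hasEnoughRootsOfUnity]
    exact Nat.card_congr toUnits.symm.toEquiv
  set Lf : ℂ → ℂ := fun s => (∏ P ∈ Sc D.c_ne, ∏ v : {v : HeightOneSpectrum (𝓞 F) // bel ι v = P},
    (facD v.1 s)⁻¹) * ∏ χ, (Fx χ s * (starRingEnd ℂ) (Fx χ ((starRingEnd ℂ) s))) with hLf
  have hconj : ∀ χ, Differentiable ℂ (fun s => (starRingEnd ℂ) (Fx χ ((starRingEnd ℂ) s))) := by
    intro χ s
    exact differentiableAt_conj_conj_iff.2 (hFd χ _)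
  have hent : Differentiable ℂ (fun s => ∏ χ, (Fx χ s * (starRingEnd ℂ) (Fx χ ((starRingEnd ℂ) s)))) :=
    Differentiable.fun_finsetProd fun χ _ => (hFd χ).mul (hconj χ)
  have hval : ∀ (L : PeriodPair) (Ω : ℂ), CurM L Ω → ∀ (Γ : Type)
      [LinearOrderedCommGroupWithZero Γ] (v : Valuation ℂ Γ), v 3 < 1 →
      v (Lf 1 / (Ω * (starRingEnd ℂ) Ω) ^ Nat.card G) = 1 := by
    intro L Ω hC Γ _ v hv
    have h1 : Lf 1 / (Ω * (starRingEnd ℂ) Ω) ^ Nat.card G =
        (∏ P ∈ Sc D.c_ne, ∏ v : {v : HeightOneSpectrum (𝓞 F) // bel ι v = P}, (facD v.1 1)⁻¹) *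
        ∏ χ : MulChar G ℂ, (Fx χ 1 * (starRingEnd ℂ) (Fx χ 1) / (Ω * (starRingEnd ℂ) Ω)) := by
      rw [hLf, Finset.prod_div_distrib, Finset.prod_const, Finset.card_univ, hcard]
      simp only [map_one]
      rw [mul_div_assoc]
    rw [h1, map_mul, map_prod, map_prod]
    have h2 : ∀ P ∈ Sc D.c_ne, v (∏ w : {v : HeightOneSpectrum (𝓞 F) // bel ι v = P},
        (facD w.1 1)⁻¹) = 1 := by
      intro P hP
      rw [map_prod]
      refine Finset.prod_eq_one fun w _ => ?_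
      rw [map_inv₀, v_facD h1B h2B D ((mem_Sc D.c_ne).1 hP) w.1 w.2 hv, inv_one]
    rw [Finset.prod_eq_one h2, one_mul]
    exact Finset.prod_eq_one fun χ _ => v_FFM h5B D χ hC hv (hFl χ L Ω hC.lat)
  refine ⟨Lf, ?_, ?_, ?_, ?_, hval⟩
  · have h1 : MeromorphicOn (fun s => ∏ P ∈ Sc D.c_ne,
        ∏ v : {v : HeightOneSpectrum (𝓞 F) // bel ι v = P}, (facD v.1 s)⁻¹) Set.univ := by
      intro z _
      refine MeromorphicAt.fun_prod fun P _ => MeromorphicAt.fun_prod fun w _ => ?_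
      exact ((facD_diff w.1).analyticAt z).meromorphicAt.inv
    intro z hz
    exact (h1 z hz).mul ((hent.analyticAt z).meromorphicAt)
  · intro s hs
    exact LF_eq h1B h2B D hFs hs
  · have h1 : ∀ P ∈ Sc D.c_ne, ∀ w : {v : HeightOneSpectrum (𝓞 F) // bel ι v = P},
        facD w.1 1 ≠ 0 := by
      intro P hP w
      obtain ⟨V, hV⟩ := exists_over_three
      exact ne_of_v (v_facD h1B h2B D ((mem_Sc D.c_ne).1 hP) w.1 w.2 hV)
    refine AnalyticAt.mul ?_ (hent.analyticAt 1)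
    refine Finset.analyticAt_fun_prod _ fun P hP => Finset.analyticAt_fun_prod _ fun w _ => ?_
    exact ((facD_diff w.1).analyticAt 1).inv (h1 P hP w)
  · obtain ⟨V, hV⟩ := exists_over_three
    obtain ⟨L, Ω, hC⟩ := exists_curM
    have h1 := hval _ Ω hC _ V.valuation hV
    intro h0
    rw [h0, zero_div, map_zero] at h1
    exact zero_ne_one h1

end

/-- PIECE C1 -/
theorem piece (h1 : P_B1) (h2 : P_B2) (h3 : P_B3) (h5 : P_B5) : P_C1 := by
  intro F _ _ ι G _ _ _ c art D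
  exact analytic_mainM h1 h2 h3 h5 D

end Pool.Agent.W2helper73.TQ
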