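import Mathlib
import Pool.Agent.W2helper73.TQ.C1
import Pool.Agent.Y696.Fq

/-!
# One half of the factorization of the L-function of `y² = x³ - 1`
-/

set_option autoImplicit false

namespace Pool.Agent.W2helper73.TQ

open NumberField IsDedekindDomain IsLocalRing Filter Topology Complex
open Pool.Agent.W192.HK Pool.Agent.TH936.CM Pool.Agent.TH936.PU
open Pool.Agent.Y696
open Pool.Agent.W2helper24.TQ (lam Prm psim P_B1 P_B2 P_B3 P_B5 P_C1 DatM AN nmF ptsF facD CurM ecm)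
open Pool.Agent.W192.CM (nu)
open Pool.Agent.H921R2.TatePole (two_le_nm nm_summable)

section
variable {F : Type} [Field F] [NumberField F] {ι : eis →+* 𝓞 F} {G : Type} [CommGroup G] [Finite G]
  [MulSemiringAction G (𝓞 F)] {c : eis} {art : (eis ⧸ (sp c : Ideal eis))ˣ →* G}

/-- the value of the character of `F` at a prime -/
noncomputable def pwm (ι : eis →+* 𝓞 F) (v : HeightOneSpectrum (𝓞 F)) : ℂ :=
  psim (bel ι v).asIdeal ^ fd ι v

/-- the denominator of the local factor of the character -/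
noncomputable def ydm (ι : eis →+* 𝓞 F) (v : HeightOneSpectrum (𝓞 F)) (s : ℂ) : ℂ :=
  1 - pwm ι v * (nK v : ℂ) ^ (-s)

/-- the local factor of the character -/
noncomputable def ywm (ι : eis →+* 𝓞 F) (v : HeightOneSpectrum (𝓞 F)) (s : ℂ) : ℂ :=
  (ydm ι v s)⁻¹

lemma pwm_six (hB : P_B1) (D : DatM ι G c art) {v : HeightOneSpectrum (𝓞 F)}
    (h6 : (6 : 𝓞 F) ∈ v.asIdeal) : pwm ι v = 0 := by
  obtain ⟨f, hf0, -, hf⟩ := exists_deg D v
  unfold pwm
  rw [fd_of hf, (hB.2.2.1 _).2 (not_cop_six ((six_iff (ι := ι) v).1 h6)), zero_pow hf0.ne']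

lemma pwm_val (h1 : P_B1) (h2 : P_B2) (D : DatM ι G c art) {v : HeightOneSpectrum (𝓞 F)}
    (h6 : (6 : 𝓞 F) ∉ v.asIdeal) :
    (((nmF v : ℤ) - ptsF v : ℤ) : ℂ) = pwm ι v + (starRingEnd ℂ) (pwm ι v) ∧
    pwm ι v * (starRingEnd ℂ) (pwm ι v) = (nK v : ℂ) := by
  obtain ⟨f, -, -, hf⟩ := exists_deg D v
  obtain ⟨h3, h4⟩ := loc (ι := ι) h1 h2 v h6 hf
  have e : pwm ι v = psim (bel ι v).asIdeal ^ f := by unfold pwm; rw [fd_of hf]
  refine ⟨?_, ?_⟩
  · rw [h3, e, map_pow]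
  · rw [e, map_pow, ← mul_pow, h4, hf]
    push_cast
    rfl

lemma pwm_norm (h1 : P_B1) (h2 : P_B2) (D : DatM ι G c art) (v : HeightOneSpectrum (𝓞 F)) :
    ‖pwm ι v‖ ^ 2 ≤ (nK v : ℝ) := by
  by_cases h6 : (6 : 𝓞 F) ∈ v.asIdeal
  · rw [pwm_six h1 D h6, norm_zero, zero_pow two_ne_zero]
    exact Nat.cast_nonneg _
  · obtain ⟨-, h⟩ := pwm_val h1 h2 D h6
    rw [Complex.mul_conj, Complex.normSq_eq_norm_sq] at h
    have h5 : ‖pwm ι v‖ ^ 2 = (nK v : ℝ) := by exact_mod_cast h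
    exact h5.le

lemma ywm_eq {v : HeightOneSpectrum (𝓞 F)} {P : HeightOneSpectrum eis} (hv : bel ι v = P) {f : ℕ}
    (hf : nK v = Nat.card (eis ⧸ P.asIdeal) ^ f) (s : ℂ) :
    ywm ι v s = (1 - (psim P.asIdeal * (nm P.asIdeal : ℂ) ^ (-s)) ^ f)⁻¹ := by
  subst hv
  unfold ywm ydm pwm
  rw [fd_of hf, mul_pow]
  congr 3
  rw [hf, nm_P]
  push_cast
  rw [← Complex.natCast_cpow_natCast_mul, Complex.cpow_nat_mul]

lemma ywm_six (hB : P_B1) (D : DatM ι G c art) {v : HeightOneSpectrum (𝓞 F)}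
    (h6 : (6 : 𝓞 F) ∈ v.asIdeal) (s : ℂ) : ywm ι v s = 1 := by
  unfold ywm ydm
  rw [pwm_six hB D h6, zero_mul, sub_zero, inv_one]

/-- the product over the characters of the factors at `P` -/
noncomputable def RFm (art : (eis ⧸ (sp c : Ideal eis))ˣ →* G) [Fintype (MulChar G ℂ)]
    (P : HeightOneSpectrum eis) (s : ℂ) : ℂ :=
  ∏ χ : MulChar G ℂ,
    (1 - psim P.asIdeal * eI (eta art χ) P.asIdeal * (nm P.asIdeal : ℂ) ^ (-s))⁻¹

omit [Finite G] in
lemma RFm_of_c [Fintype (MulChar G ℂ)] {P : HeightOneSpectrum eis}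
    (hP : c ∈ P.asIdeal) (s : ℂ) : RFm art P s = 1 := by
  unfold RFm
  refine Finset.prod_eq_one fun χ _ => ?_
  have h1 : eI (eta art χ) P.asIdeal = 0 := by
    show et (eta art χ) (gP P) = 0
    rw [et_zero_iff]
    rintro ⟨a, b, hab⟩
    apply P.isPrime.ne_top
    rw [Ideal.eq_top_iff_one, ← hab]
    refine P.asIdeal.add_mem (P.asIdeal.mul_mem_left _ ?_) (P.asIdeal.mul_mem_left _ hP)
    have := Ideal.mem_span_singleton_self (gP P)
    rwa [← sp, ← gP_span] at this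
  rw [h1]
  simp

omit [Finite G] in
lemma RFm_of_six (hB : P_B1) [Fintype (MulChar G ℂ)] {P : HeightOneSpectrum eis}
    (hP : (6 : eis) ∈ P.asIdeal) (s : ℂ) : RFm art P s = 1 := by
  unfold RFm
  refine Finset.prod_eq_one fun χ _ => ?_
  have h1 : psim P.asIdeal = 0 := (hB.2.2.1 _).2 (not_cop_six hP)
  rw [h1]
  simp

/-- the fibre over a prime that does not divide `6c` -/
lemma fibm_good (h1B : P_B1) (h2B : P_B2) (D : DatM ι G c art) [Fintype (MulChar G ℂ)]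
    {P : HeightOneSpectrum eis}
    (hPc : c ∉ P.asIdeal) (hP6 : (6 : eis) ∉ P.asIdeal) {s : ℂ} (hs : 1 < s.re) :
    ∏ v : {v : HeightOneSpectrum (𝓞 F) // bel ι v = P}, ywm ι v.1 s = RFm art P s := by
  classical
  have hcop : IsCoprime (gP P) c := by
    rw [cop_iff D.c_ne]
    intro Q hQ h
    apply hPc
    have h1 : P.asIdeal ≤ Q.asIdeal := by
      rw [gP_span, Ideal.span_singleton_le_iff_mem]
      exact h
    have h2 : P.asIdeal = Q.asIdeal :=
      (P.isPrime.isMaximal P.ne_bot).eq_of_le Q.isPrime.ne_top h1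
    rw [h2]
    exact (mem_Sc D.c_ne).1 hQ
  obtain ⟨u, hu⟩ := (unit_iff (c := c) (gP P)).2 hcop
  obtain ⟨h1, h2⟩ := split D hPc hu
  obtain ⟨v0, hv0⟩ := exists_over D P
  have h6v : (6 : 𝓞 F) ∉ v0.asIdeal := by
    rw [six_iff (ι := ι), hv0]
    exact hP6
  have hpsi : psim P.asIdeal * (starRingEnd ℂ) (psim P.asIdeal) =
      (Nat.card (eis ⧸ P.asIdeal) : ℂ) := by
    obtain ⟨-, h4⟩ := loc (ι := ι) h1B h2B v0 h6v
      (f := orderOf (art u)) (by rw [h1 v0 hv0, hv0])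
    rw [hv0] at h4
    exact h4
  have hN2 := card_two_le P
  set N := Nat.card (eis ⧸ P.asIdeal) with hN
  have hN1 : (1 : ℝ) < N := by
    have : (2 : ℝ) ≤ N := by exact_mod_cast hN2
    linarith
  set f := orderOf (art u) with hf
  have hpn : ‖psim P.asIdeal‖ ≤ N := by
    rw [Complex.mul_conj, Complex.normSq_eq_norm_sq] at hpsi
    have h5 : ‖psim P.asIdeal‖ ^ 2 = N := by exact_mod_cast hpsi
    nlinarith [norm_nonneg (psim P.asIdeal)]
  have hyn : ‖psim P.asIdeal * (nm P.asIdeal : ℂ) ^ (-s)‖ < 1 := by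
    rw [norm_mul, nm_P]
    have h5 : ‖(((N : ℝ)) : ℂ) ^ (-s)‖ = (N : ℝ) ^ (-s.re) := by
      rw [Complex.norm_cpow_eq_rpow_re_of_pos (by linarith), Complex.neg_re]
    rw [h5]
    calc ‖psim P.asIdeal‖ * (N : ℝ) ^ (-s.re) ≤ (N : ℝ) * (N : ℝ) ^ (-s.re) := by gcongr
      _ = (N : ℝ) ^ (1 - s.re) := by
        rw [sub_eq_add_neg, Real.rpow_add (by linarith), Real.rpow_one]
      _ < 1 := Real.rpow_lt_one_of_one_lt_of_neg hN1 (by linarith)
  have hL : ∏ v : {v : HeightOneSpectrum (𝓞 F) // bel ι v = P}, ywm ι v.1 s =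
      ((1 - (psim P.asIdeal * (nm P.asIdeal : ℂ) ^ (-s)) ^ f) ^ (Nat.card G / f))⁻¹ := by
    have h5 : ∀ v : {v : HeightOneSpectrum (𝓞 F) // bel ι v = P}, ywm ι v.1 s =
        (1 - (psim P.asIdeal * (nm P.asIdeal : ℂ) ^ (-s)) ^ f)⁻¹ := by
      rintro ⟨v, hv⟩
      exact ywm_eq hv (h1 v hv) s
    rw [Finset.prod_congr rfl fun v _ => h5 v, Finset.prod_const, Finset.card_univ, h2, inv_pow]
  rw [hL]
  unfold RFm
  have heI : ∀ χ : MulChar G ℂ, eI (eta art χ) P.asIdeal = χ (art u) := by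
    intro χ
    show et (eta art χ) (gP P) = _
    unfold et
    rw [← hu, eta_unit]
  simp only [heI]
  rw [Finset.prod_inv_distrib]
  congr 1
  rw [← prod_mc (art u) _ hyn]
  refine Finset.prod_congr rfl fun χ _ => ?_
  ring

lemma ywm_mult (h1B : P_B1) (h2B : P_B2) (D : DatM ι G c art) {s : ℂ} (hs : 3 / 2 < s.re) :
    Multipliable (fun v : HeightOneSpectrum (𝓞 F) => ywm ι v s) := by
  have hb : ∀ v : HeightOneSpectrum (𝓞 F), ‖pwm ι v * (nK v : ℂ) ^ (-s)‖ ≤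
      (nK v : ℝ) ^ (-(s.re - 1 / 2)) := by
    intro v
    have hq2 : (2 : ℝ) ≤ nK v := by exact_mod_cast two_le_nm v
    have hq0 : (0 : ℝ) < nK v := by linarith
    have h1 : ‖pwm ι v‖ ≤ Real.sqrt (nK v) := Real.le_sqrt_of_sq_le (pwm_norm h1B h2B D v)
    rw [norm_mul, Complex.norm_natCast_cpow_of_pos (by have := two_le_nm v; unfold nK; omega),
      Complex.neg_re]
    calc ‖pwm ι v‖ * (nK v : ℝ) ^ (-s.re) ≤ Real.sqrt (nK v) * (nK v : ℝ) ^ (-s.re) := by gcongr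
      _ = (nK v : ℝ) ^ (-(s.re - 1 / 2)) := by
        rw [Real.sqrt_eq_rpow, ← Real.rpow_add hq0]
        congr 1
        ring
  have hh : ∀ v : HeightOneSpectrum (𝓞 F), (nK v : ℝ) ^ (-(s.re - 1 / 2)) ≤ 1 / 2 := by
    intro v
    have hq2 : (2 : ℝ) ≤ nK v := by exact_mod_cast two_le_nm v
    calc (nK v : ℝ) ^ (-(s.re - 1 / 2)) ≤ (nK v : ℝ) ^ (-1 : ℝ) :=
          Real.rpow_le_rpow_of_exponent_le (by linarith) (by linarith)
      _ = (nK v : ℝ)⁻¹ := Real.rpow_neg_one _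
      _ ≤ 2⁻¹ := inv_anti₀ (by norm_num) hq2
      _ = 1 / 2 := by norm_num
  have hsum := nm_summable (K := F) (x := s.re - 1 / 2) (by linarith)
  exact mult_inv hsum hb hh

/-- the Euler product of the half -/
theorem ywm_prod (h1B : P_B1) (h2B : P_B2) (D : DatM ι G c art) [Fintype (MulChar G ℂ)]
    {Fx : MulChar G ℂ → ℂ → ℂ}
    (hF : ∀ χ : MulChar G ℂ, ∀ z : ℂ, 3 / 2 < z.re →
      HasSum (fun I : Ideal eis => psim I * eI (eta art χ) I * (nm I : ℂ) ^ (-z)) (Fx χ z))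
    {s : ℂ} (hs : 3 / 2 < s.re) :
    HasProd (fun v : HeightOneSpectrum (𝓞 F) => ywm ι v s)
      ((∏ P ∈ Sc D.c_ne, ∏ v : {v : HeightOneSpectrum (𝓞 F) // bel ι v = P}, ywm ι v.1 s) *
        ∏ χ, Fx χ s) := by
  classical
  obtain ⟨Y, h2⟩ := ywm_mult (ι := ι) h1B h2B D hs
  have h3 := (Equiv.sigmaFiberEquiv (bel ι)).hasProd_iff.2 h2
  have h4 : HasProd (fun P : HeightOneSpectrum eis =>
      ∏ v : {v : HeightOneSpectrum (𝓞 F) // bel ι v = P}, ywm ι v.1 s) Y := by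
    refine h3.sigma fun P => ?_
    exact hasProd_fintype _ (.unconditional _)
  have h5 : HasProd (fun P : HeightOneSpectrum eis => if P ∈ Sc D.c_ne then
      ∏ v : {v : HeightOneSpectrum (𝓞 F) // bel ι v = P}, ywm ι v.1 s else 1)
      (∏ P ∈ Sc D.c_ne, ∏ v : {v : HeightOneSpectrum (𝓞 F) // bel ι v = P}, ywm ι v.1 s) := by
    have h6 := hasProd_prod_of_ne_finset_one (L := .unconditional _) (s := Sc D.c_ne)
      (f := fun P : HeightOneSpectrum eis => if P ∈ Sc D.c_ne then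
        ∏ v : {v : HeightOneSpectrum (𝓞 F) // bel ι v = P}, ywm ι v.1 s else 1)
      (fun P hP => if_neg hP)
    rw [Finset.prod_congr rfl (fun P hP => if_pos hP)] at h6
    exact h6
  have h7 : HasProd (fun P : HeightOneSpectrum eis => RFm art P s) (∏ χ, Fx χ s) := by
    unfold RFm
    apply hasProd_prod
    intro χ _
    exact hp_etaM h1B (et_unitM D χ) (hF χ s hs)
  have h6 := h5.mul h7
  have h8 := h4.unique (h6.congr_fun fun P => by
    by_cases hP : P ∈ Sc D.c_ne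
    · rw [if_pos hP, RFm_of_c ((mem_Sc D.c_ne).1 hP), mul_one]
    · rw [if_neg hP, one_mul]
      have hPc : c ∉ P.asIdeal := fun h => hP ((mem_Sc D.c_ne).2 h)
      by_cases h6P : (6 : eis) ∈ P.asIdeal
      · rw [RFm_of_six h1B h6P]
        refine Finset.prod_eq_one fun v _ => ywm_six h1B D ?_ s
        rw [six_iff (ι := ι), v.2]
        exact h6P
      · exact fibm_good h1B h2B D hPc h6P (by linarith))
  rw [← h8]
  exact h2

end

end Pool.Agent.W2helper73.TQ
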