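import Mathlib
import Pool.Agent.W2helper73.TQ.Hm

/-!
# The factorization of the L-function of `y² = x³ - 1` over a field without cube roots of unity
-/

set_option autoImplicit false

namespace Pool.Agent.W2helper73.TQ

open NumberField IsDedekindDomain IsLocalRing Filter Topology Complex
open Pool.Agent.W192.HK Pool.Agent.TH936.CM Pool.Agent.TH936.PU
open Pool.Agent.Y696
open Pool.Agent.W2helper24.TQ (lam Prm psim P_B1 P_B2 P_B3 P_B5 P_C1 DatM AN nmF ptsF facD CurM ecm)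
open Pool.Agent.W192.CM (nu)
open Pool.Agent.H921R2.TatePole (two_le_nm nm_summable)

lemma cj_two : cj 2 = 2 := coe_inj' (by
  rw [cj_coe]
  have : ((2 : eis) : ℂ) = 2 := rfl
  rw [this, map_ofNat])

lemma cj_four : cj 4 = 4 := coe_inj' (by
  rw [cj_coe]
  have : ((4 : eis) : ℂ) = 4 := rfl
  rw [this, map_ofNat])

lemma cj_int (n : ℤ) : cj (n : eis) = n := coe_inj' (by
  rw [cj_coe]
  push_cast
  rw [map_intCast])

lemma cj_lam : cj lam = -lam := by
  have h1 : (cj lam : eis) = 2 * cj omr + 1 := coe_inj' (by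
    unfold Pool.Agent.W2helper24.TQ.lam
    push_cast
    rw [cj_coe, cj_coe]
    push_cast
    rw [map_add, map_mul, map_one]
    have : ((2 : eis) : ℂ) = 2 := rfl
    rw [this, map_ofNat])
  rw [h1, cj_omr]
  unfold Pool.Agent.W2helper24.TQ.lam
  linear_combination 2 * omr_sq

lemma mem_cj {a b : eis} (h : a ∈ (sp b : Ideal eis)) : cj a ∈ (sp (cj b) : Ideal eis) := by
  rw [Ideal.mem_span_singleton] at h ⊢
  rw [cj_dvd, cj_cj]
  exact h

/-- the conjugate of a normalized generator -/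
lemma prm_cj {π : eis} (h : Prm π) : Prm (cj π) := by
  obtain ⟨e, he, h2, hl, h4⟩ := h
  refine ⟨e, he, ?_, ?_, ?_⟩
  · have := mem_cj h2
    rwa [cj_sub, cj_one, cj_two] at this
  · have := mem_cj hl
    rw [cj_sub, cj_int, cj_lam, Ideal.mem_span_singleton, neg_dvd, ← Ideal.mem_span_singleton] at this
    exact this
  · rw [cj_cj, mul_comm]
    exact h4

/-- the conjugate prime -/
lemma psim_cj (hB : P_B1) {P P' : HeightOneSpectrum eis}
    (h : ∀ a, a ∈ P'.asIdeal ↔ cj a ∈ P.asIdeal)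
    (h6 : (6 : eis) ∉ P.asIdeal) : psim P'.asIdeal = (starRingEnd ℂ) (psim P.asIdeal) ∧
      Nat.card (eis ⧸ P'.asIdeal) = Nat.card (eis ⧸ P.asIdeal) := by
  obtain ⟨π, hπ1, hπ2⟩ := hB.2.1 P.asIdeal (cop_six h6)
  have hπ1' : P'.asIdeal = sp (cj π) := by
    ext a
    rw [h, hπ1, Ideal.mem_span_singleton, Ideal.mem_span_singleton, cj_dvd]
  constructor
  · rw [hπ1', hπ1, hB.1 _ hπ2, hB.1 _ (prm_cj hπ2), cj_coe]
  · have e1 : ((Nat.card (eis ⧸ P.asIdeal) : ℕ) : ℝ) = Complex.normSq (π : ℂ) := by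
      rw [hπ1]
      exact (lbasic eis om qr).2.2.2.2.1 π
    have e2 : ((Nat.card (eis ⧸ P'.asIdeal) : ℕ) : ℝ) = Complex.normSq ((cj π : eis) : ℂ) := by
      rw [hπ1']
      exact (lbasic eis om qr).2.2.2.2.1 (cj π)
    rw [cj_coe, Complex.normSq_conj, ← e1] at e2
    exact_mod_cast e2

lemma three_dvd_of_lam {n : ℤ} (h : (n : eis) ∈ (sp lam : Ideal eis)) : 3 ∣ n := by
  obtain ⟨t, ht⟩ := Ideal.mem_span_singleton'.1 h
  have h1 : (n : eis) * cj (n : eis) = (t * cj t) * 3 := by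
    rw [← ht, cj_mul, cj_lam]
    linear_combination (-(t * cj t)) * lam_sq
  rw [cj_int] at h1
  obtain ⟨x, y, hxy⟩ := eis_rep (t * cj t)
  rw [hxy] at h1
  have h9 := congrArg (fun z : eis => (z : ℂ)) h1
  push_cast at h9
  have h33 : ((3 : eis) : ℂ) = 3 := rfl
  rw [h33, omr_coe] at h9
  have h10 : ((n * n - 3 * x : ℤ) : ℂ) + ((-3 * y : ℤ) : ℂ) * om = 0 := by
    push_cast
    linear_combination h9
  have h11 : n * n = 3 * x := by
    have := (rep_zero h10).1
    linarith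
  have h12 : (3 : ℤ) ∣ n * n := ⟨x, h11⟩
  rcases Int.Prime.dvd_mul' Nat.prime_three h12 with h | h <;> exact_mod_cast h

/-- the value of the character at a prime that is equal to its conjugate -/
lemma psim_self (hB : P_B1) {P : HeightOneSpectrum eis}
    (h : ∀ a, a ∈ P.asIdeal ↔ cj a ∈ P.asIdeal)
    (h6 : (6 : eis) ∉ P.asIdeal) : ∃ t : ℤ, psim P.asIdeal = t ∧ t % 3 = 1 ∧
      (Nat.card (eis ⧸ P.asIdeal) : ℤ) = t ^ 2 := by
  obtain ⟨π, hπ1, hπ2⟩ := hB.2.1 P.asIdeal (cop_six h6)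
  have h5 := (psim_cj hB h h6).1
  have hpsi : psim P.asIdeal = π := by rw [hπ1]; exact hB.1 _ hπ2
  rw [hpsi] at h5
  obtain ⟨x, y, hxy⟩ := π.2
  have him := congrArg Complex.im h5
  rw [Complex.conj_im] at him
  have h7 : (π : ℂ).im = 0 := by linarith
  rw [hxy] at h7
  simp only [Complex.add_im, Complex.mul_im, Complex.intCast_im, Complex.intCast_re,
    zero_mul, add_zero, zero_add] at h7
  have h7 : (y : ℝ) = 0 := (mul_eq_zero.1 h7).resolve_right om_im.ne'
  have h8 : y = 0 := by exact_mod_cast h7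
  have hπx : (π : ℂ) = x := by rw [hxy, h8]; push_cast; ring
  have hπx' : π = (x : eis) := coe_inj' (by rw [hπx]; push_cast; rfl)
  have hcard : (Nat.card (eis ⧸ P.asIdeal) : ℤ) = x ^ 2 := by
    have e1 : ((Nat.card (eis ⧸ P.asIdeal) : ℕ) : ℝ) = Complex.normSq (π : ℂ) := by
      rw [hπ1]
      exact (lbasic eis om qr).2.2.2.2.1 π
    rw [hπx, Complex.normSq_intCast] at e1
    have : ((Nat.card (eis ⧸ P.asIdeal) : ℕ) : ℝ) = ((x ^ 2 : ℤ) : ℝ) := by
      rw [e1]; push_cast; ring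
    exact_mod_cast this
  refine ⟨x, by rw [hpsi, hπx], ?_, hcard⟩
  obtain ⟨e, he, h2, hl, h4⟩ := hπ2
  rw [hπx'] at h2 hl h4
  rw [cj_int] at h4
  have h4' : (((x * x - e : ℤ)) : eis) ∈ (sp 4 : Ideal eis) := by
    push_cast
    exact h4
  have h40 := four_dvd h4'
  have hl' : (((x - e : ℤ)) : eis) ∈ (sp lam : Ideal eis) := by
    push_cast
    exact hl
  have h30 := three_dvd_of_lam hl'
  have he1 : e = 1 := by
    rcases he with rfl | rfl
    · rfl
    · exfalso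
      obtain ⟨k, hk⟩ := h40
      have h11 : (x * x) % 4 = 3 := by omega
      have h12 : x % 4 = 0 ∨ x % 4 = 1 ∨ x % 4 = 2 ∨ x % 4 = 3 := by omega
      rcases h12 with h | h | h | h <;> simp [Int.mul_emod, h] at h11
  rw [he1] at h30
  omega

/-- the affine points over a finite field -/
abbrev Afm (k : Type) [CommRing k] : Type := {p : k × k // p.2 ^ 2 = p.1 ^ 3 - 1}

lemma afm_iso {k k' : Type} [CommRing k] [CommRing k'] (e : k ≃+* k') :
    Nat.card (Afm k) = Nat.card (Afm k') := by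
  refine Nat.card_congr
    { toFun := fun p => ⟨(e p.1.1, e p.1.2), ?_⟩
      invFun := fun p => ⟨(e.symm p.1.1, e.symm p.1.2), ?_⟩
      left_inv := ?_
      right_inv := ?_ }
  · have := congrArg e p.2
    simpa only [map_sub, map_pow, map_one] using this
  · have := congrArg e.symm p.2
    simpa only [map_sub, map_pow, map_one] using this
  · rintro ⟨⟨x, y⟩, h⟩
    simp
  · rintro ⟨⟨x, y⟩, h⟩
    simp

lemma afm_inert {k : Type} [Field k] [Finite k] (h : Nat.card k % 3 = 2) :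
    Nat.card (Afm k) = Nat.card k := by
  have hb := cube_bij h
  refine Nat.card_congr (Equiv.ofBijective (fun p : Afm k => p.1.2) ⟨?_, ?_⟩)
  · rintro ⟨⟨x, y⟩, h1⟩ ⟨⟨x', y'⟩, h2⟩ h3
    simp only at h1 h2 h3
    subst h3
    have : x = x' := hb.1 (show x ^ 3 = x' ^ 3 by linear_combination h2 - h1)
    subst this
    rfl
  · intro y
    obtain ⟨x, hx⟩ := hb.2 (y ^ 2 + 1)
    exact ⟨⟨(x, y), by linear_combination -hx⟩, rfl⟩

section
variable {k F : Type} [Field k] [NumberField k] [Field F] [NumberField F] [Algebra k F]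
  {ι : eis →+* 𝓞 F} {G : Type} [CommGroup G] [Finite G]
  [MulSemiringAction G (𝓞 F)] {c : eis} {art : (eis ⧸ (sp c : Ideal eis))ˣ →* G}

/-- the coefficient only depends on the norm -/
lemma ptsF_eq {v : HeightOneSpectrum (𝓞 k)} {w : HeightOneSpectrum (𝓞 F)}
    (h : Nat.card (𝓞 F ⧸ w.asIdeal) = Nat.card (𝓞 k ⧸ v.asIdeal)) :
    nmF v = nmF w ∧ ptsF v = ptsF w := by
  have hvmax : v.asIdeal.IsMaximal := v.isPrime.isMaximal v.ne_bot
  have hwmax : w.asIdeal.IsMaximal := w.isPrime.isMaximal w.ne_bot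
  have hfv : Finite (𝓞 k ⧸ v.asIdeal) := Ideal.finiteQuotientOfFreeOfNeBot v.asIdeal v.ne_bot
  have hfw : Finite (𝓞 F ⧸ w.asIdeal) := Ideal.finiteQuotientOfFreeOfNeBot w.asIdeal w.ne_bot
  let _ : Field (𝓞 k ⧸ v.asIdeal) := Ideal.Quotient.field _
  let _ : Field (𝓞 F ⧸ w.asIdeal) := Ideal.Quotient.field _
  let _ : Fintype (𝓞 k ⧸ v.asIdeal) := Fintype.ofFinite _
  let _ : Fintype (𝓞 F ⧸ w.asIdeal) := Fintype.ofFinite _
  have hc : Fintype.card (𝓞 k ⧸ v.asIdeal) = Fintype.card (𝓞 F ⧸ w.asIdeal) := by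
    rw [← Nat.card_eq_fintype_card, ← Nat.card_eq_fintype_card, h]
  have e := FiniteField.ringEquivOfCardEq hc
  exact ⟨h.symm, afm_iso e⟩

lemma ptsF_inert {v : HeightOneSpectrum (𝓞 k)} (h : Nat.card (𝓞 k ⧸ v.asIdeal) % 3 = 2) :
    ptsF v = nmF v := by
  have hvmax : v.asIdeal.IsMaximal := v.isPrime.isMaximal v.ne_bot
  have hfv : Finite (𝓞 k ⧸ v.asIdeal) := Ideal.finiteQuotientOfFreeOfNeBot v.asIdeal v.ne_bot
  let _ : Field (𝓞 k ⧸ v.asIdeal) := Ideal.Quotient.field _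
  exact afm_inert h

lemma mem_below {v : HeightOneSpectrum (𝓞 k)} {w : HeightOneSpectrum (𝓞 F)}
    (hlo : w.asIdeal.LiesOver v.asIdeal) (n : ℕ) [n.AtLeastTwo] :
    (OfNat.ofNat n : 𝓞 k) ∈ v.asIdeal ↔ (OfNat.ofNat n : 𝓞 F) ∈ w.asIdeal := by
  rw [hlo.over, Ideal.under_def, Ideal.mem_comap, map_ofNat]

/-- the fibre over a prime of the small field -/
theorem fib_small (h1B : P_B1) (h2B : P_B2) {τ : F ≃ₐ[k] F} (h2 : Module.finrank k F = 2)
    (hcj : ∀ a : eis, τ • ι a = ι (cj a)) (D : DatM ι G c art)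
    (v : HeightOneSpectrum (𝓞 k)) (s : ℂ) :
    HasProd (fun w : {w : HeightOneSpectrum (𝓞 F) // und0 k w = v} => ywm ι w.1 s)
      (Pool.Agent.W2helper24.TQ.fac v s) := by
  classical
  by_cases h6 : (6 : 𝓞 k) ∈ v.asIdeal
  · have hX : Pool.Agent.W2helper24.TQ.fac v s = 1 := by
      unfold Pool.Agent.W2helper24.TQ.fac Pool.Agent.W2helper24.TQ.facD
      rw [if_pos h6, inv_one]
    rw [hX]
    have h4 : ∀ w : {w : HeightOneSpectrum (𝓞 F) // und0 k w = v}, ywm ι w.1 s = 1 := by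
      rintro ⟨w, hw⟩
      exact ywm_six h1B D ((mem_below (und0_iff.1 hw) 6).1 h6) s
    rw [show (fun w : {w : HeightOneSpectrum (𝓞 F) // und0 k w = v} => ywm ι w.1 s) =
      fun _ => 1 from funext h4]
    exact hasProd_one
  · have hζ : (ι omr) ^ 2 + ι omr + 1 = 0 := by
      rw [← map_pow, ← map_add, ← map_one ι, ← map_add, omr_sq, map_zero]
    have hτ : τ ((ι omr : 𝓞 F) : F) = ((ι omr : 𝓞 F) : F) ^ 2 := by
      have h5 := hcj omr
      rw [cj_omr, map_pow] at h5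
      have h6 := congrArg (fun z : 𝓞 F => (z : F)) h5
      exact h6
    have h3 : (3 : 𝓞 k) ∉ v.asIdeal := by
      intro h
      apply h6
      have : (6 : 𝓞 k) = 2 * 3 := by norm_num
      rw [this]
      exact v.asIdeal.mul_mem_left _ h
    have hbel : ∀ {w w' : HeightOneSpectrum (𝓞 F)},
        (∀ x : 𝓞 F, x ∈ w'.asIdeal ↔ τ • x ∈ w.asIdeal) → ∀ a : eis,
        a ∈ (bel ι w').asIdeal ↔ cj a ∈ (bel ι w).asIdeal := by
      intro w w' h a
      rw [mem_bel, mem_bel, h, hcj]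
    have hcv : Nat.card (𝓞 k ⧸ v.asIdeal) = nK v := card_nm v
    have hnv : nmF v = nK v := card_nm v
    have hn0 : ((nK v : ℕ) : ℂ) ≠ 0 := by
      have h5 := two_le_nm v
      have h : nK v ≠ 0 := by unfold nK; omega
      exact_mod_cast h
    have e3 : ((nK v : ℕ) : ℂ) ^ (1 - 2 * s) = (nK v : ℂ) * ((nK v : ℂ) ^ (-s)) ^ 2 := by
      rw [show (1 - 2 * s : ℂ) = 1 + (2 : ℕ) * (-s) by push_cast; ring, Complex.cpow_add _ _ hn0,
        Complex.cpow_one, Complex.cpow_nat_mul]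
    rcases Pool.Agent.Y900.QC.jobC h2 (ι omr) hζ τ hτ v h3 with
      ⟨-, w, w', hne, hww, hlo, hn, hn'⟩ | ⟨hq, w, hww, hlo, hn⟩
    · -- the split case
      have hp : ∀ u : HeightOneSpectrum (𝓞 F), und0 k u = v ↔ u ∈ ({w, w'} : Finset _) := by
        intro u
        rw [und0_iff, hlo, Finset.mem_insert, Finset.mem_singleton]
      have h4 := hasProd_sub (f := fun u : HeightOneSpectrum (𝓞 F) => ywm ι u s) _ hp
      rw [Finset.prod_pair hne] at h4
      have hwv : w.asIdeal.LiesOver v.asIdeal := (hlo w).2 (Or.inl rfl)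
      have hnw : nK v = nK w := by rw [← card_nm, ← card_nm, hn]
      have hnw' : nK w' = nK w := by rw [← card_nm, ← card_nm, hn, hn']
      have h6w : (6 : 𝓞 F) ∉ w.asIdeal := fun h => h6 ((mem_below hwv 6).2 h)
      obtain ⟨a1, a2⟩ := ptsF_eq hn
      obtain ⟨b1, b3⟩ := pwm_val h1B h2B D h6w
      obtain ⟨c1, c2⟩ := psim_cj h1B (hbel hww) (fun h => h6w ((six_iff (ι := ι) w).2 h))
      obtain ⟨f, -, -, hf⟩ := exists_deg D w
      have hf' : nK w' = Nat.card (eis ⧸ (bel ι w').asIdeal) ^ f := by rw [hnw', c2, hf]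
      have hpw : pwm ι w' = (starRingEnd ℂ) (pwm ι w) := by
        unfold pwm
        rw [fd_of hf, fd_of hf', c1, map_pow]
      have hX : Pool.Agent.W2helper24.TQ.fac v s = ywm ι w s * ywm ι w' s := by
        unfold Pool.Agent.W2helper24.TQ.fac Pool.Agent.W2helper24.TQ.facD ywm ydm
        rw [if_neg h6, ← mul_inv, hnv, e3]
        have h7 : (((nK v : ℤ) - ptsF v : ℤ) : ℂ) = (((nmF w : ℤ) - ptsF w : ℤ) : ℂ) := by
          rw [a2, ← a1, hnv]
        rw [h7, b1, hpw, hnw', hnw]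
        congr 1
        linear_combination -((nK w : ℂ) ^ (-s)) ^ 2 * b3
      rw [hX]
      exact h4
    · have hp : ∀ u : HeightOneSpectrum (𝓞 F), und0 k u = v ↔ u ∈ ({w} : Finset _) := by
        intro u
        rw [und0_iff, hlo, Finset.mem_singleton]
      have h4 := hasProd_sub (f := fun u : HeightOneSpectrum (𝓞 F) => ywm ι u s) _ hp
      rw [Finset.prod_singleton] at h4
      have hwv : w.asIdeal.LiesOver v.asIdeal := (hlo w).2 rfl
      have h6w : (6 : 𝓞 F) ∉ w.asIdeal := fun h => h6 ((mem_below hwv 6).2 h)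
      have a1 := ptsF_inert hq
      rw [hcv] at hq
      obtain ⟨t, t1, t2, t3⟩ := psim_self h1B (P := bel ι w) (hbel hww)
        (fun h => h6w ((six_iff (ι := ι) w).2 h))
      obtain ⟨f, -, -, hf⟩ := exists_deg D w
      have hnw : nK w = nK v ^ 2 := by rw [← card_nm, hn, hcv]
      have h5 : ((nK v : ℕ) : ℤ) ^ 2 = (t ^ 2) ^ f := by
        rw [← t3]
        rw [hnw] at hf
        exact_mod_cast hf
      have h6' := pow_mod_aux t2 hq h5
      have hpw : pwm ι w = -(nK v : ℂ) := by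
        unfold pwm
        rw [fd_of hf, t1]
        exact_mod_cast h6'
      have hX : Pool.Agent.W2helper24.TQ.fac v s = ywm ι w s := by
        unfold Pool.Agent.W2helper24.TQ.fac Pool.Agent.W2helper24.TQ.facD ywm ydm
        rw [if_neg h6, a1, hnv, e3, hpw, hnw]
        congr 1
        have e : (((nK v ^ 2 : ℕ) : ℕ) : ℂ) ^ (-s) = ((nK v : ℂ) ^ (-s)) ^ 2 := by
          push_cast
          rw [← Complex.natCast_cpow_natCast_mul, Complex.cpow_nat_mul]
        rw [e]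
        push_cast
        ring
      rw [hX]
      exact h4

/-- **the factorization of the L-function of the small field** -/
theorem lf_small (h1B : P_B1) (h2B : P_B2) {τ : F ≃ₐ[k] F} (h2 : Module.finrank k F = 2)
    (hcj : ∀ a : eis, τ • ι a = ι (cj a)) (D : DatM ι G c art) [Fintype (MulChar G ℂ)]
    {Fx : MulChar G ℂ → ℂ → ℂ}
    (hF : ∀ χ : MulChar G ℂ, ∀ z : ℂ, 3 / 2 < z.re →
      HasSum (fun I : Ideal eis => psim I * eI (eta art χ) I * (nm I : ℂ) ^ (-z)) (Fx χ z))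
    {s : ℂ} (hs : 3 / 2 < s.re) :
    HasProd (fun v : HeightOneSpectrum (𝓞 k) => Pool.Agent.W2helper24.TQ.fac v s)
      ((∏ P ∈ Sc D.c_ne, ∏ v : {v : HeightOneSpectrum (𝓞 F) // bel ι v = P}, ywm ι v.1 s) *
        ∏ χ, Fx χ s) := by
  have h3 := ywm_prod h1B h2B D hF hs
  have h4 := (Equiv.sigmaFiberEquiv (und0 k (K := F))).hasProd_iff.2 h3
  exact h4.sigma (g := fun v => Pool.Agent.W2helper24.TQ.fac v s)
    fun v => fib_small h1B h2B h2 hcj D v s

end

end Pool.Agent.W2helper73.TQ
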