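import Mathlib
import Pool.Agent.W2helper73.TQ.Fm
import Pool.Agent.W2helper24.TQ.Stm2
import Pool.Agent.W2helper24.TQ.C2
import Pool.Agent.Y696.Aq
import Pool.Agent.H285R3.Str.PerCx

/-!
# The analytic theorem for `y² = x³ - 1` over a field without cube roots of unity
(piece G1 of the project TQ)
-/

set_option autoImplicit false

namespace Pool.Agent.W2helper73.TQ

open NumberField IsDedekindDomain IsLocalRing Filter Topology Complex
open Pool.Agent.W192.HK Pool.Agent.TH936.CM Pool.Agent.TH936.PU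
open Pool.Agent.Y696
open Pool.Agent.W2helper24.TQ (lam Prm psim P_B1 P_B2 P_B3 P_B4 P_B5 P_C1 P_G1 DatM AN nmF ptsF facD
  CurM ecm GoodC mkDatM curM_of)
open Pool.Agent.W192.CM (nu)
open Pool.Agent.H921R2.TatePole (two_le_nm nm_summable)
open scoped PeriodPair

/-! ## The real period -/

/-- the lattice is stable under the conjugation -/
lemma conj_stable {L : PeriodPair} (h2 : L.g₂ = 0) (h3 : L.g₃ = 4) {z : ℂ} (hz : z ∈ L.lattice) :
    (starRingEnd ℂ) z ∈ L.lattice := by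
  obtain ⟨Ω, hΩ, hC⟩ : ∃ (Ω : ℂ) (hΩ : Ω ≠ 0), CurM (hex Ω hΩ) Ω := by
    have h0 := hex_g3 1 one_ne_zero
    obtain ⟨Ω, hΩ⟩ := IsAlgClosed.exists_pow_nat_eq ((hex 1 one_ne_zero).g₃ / 4) (n := 6) (by norm_num)
    have hΩ0 : Ω ≠ 0 := by
      rintro rfl
      apply h0
      rw [zero_pow (by norm_num)] at hΩ
      linear_combination (-4) * hΩ
    refine ⟨Ω, hΩ0, hex_lat Ω hΩ0, hex_g2 Ω hΩ0, ?_⟩
    rw [hex_g3_scale hΩ0, hΩ]
    field_simp
  have hΩc : (starRingEnd ℂ) Ω ≠ 0 := (map_ne_zero _).2 hΩ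
  have h1 : (hex ((starRingEnd ℂ) Ω) hΩc).g₃ = 4 := by
    have h3 := congrArg (starRingEnd ℂ) hC.g3
    rw [hex_g3_scale hΩ, map_div₀, conj_g3_one, map_pow, map_ofNat] at h3
    rw [hex_g3_scale hΩc]
    exact h3
  have h4 := Pool.Agent.Y577.LU.lat_unique L (hex _ hΩc)
    (h2.trans (hex_g2 _ hΩc).symm) (h3.trans h1.symm)
  have h5 := Pool.Agent.Y577.LU.lat_unique L (hex Ω hΩ)
    (h2.trans (hex_g2 _ hΩ).symm) (h3.trans hC.g3.symm)
  rw [h5] at hz
  rw [h4]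
  obtain ⟨r, hr⟩ := ((hex_lat Ω hΩ).mem _).1 hz
  exact ((hex_lat _ hΩc).mem _).2 ⟨cj r, by rw [hr, cj_coe, map_mul]⟩

lemma lam_coe_sq : (lam : ℂ) ^ 2 = -3 := by
  have h0 := congrArg (fun x : eis => (x : ℂ)) lam_sq
  push_cast at h0
  rw [h0]
  rfl

/-- the residues modulo `√-3` -/
lemma mod_lam (γ : eis) : ∃ (e : ℤ) (δ : eis), (e = 0 ∨ e = 1 ∨ e = -1) ∧ γ = e + lam * δ := by
  obtain ⟨x, y, rfl⟩ := eis_rep γ
  have h1 : (omr : eis) = 1 + lam * (-omr ^ 2) := by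
    unfold Pool.Agent.W2helper24.TQ.lam
    linear_combination (2 * omr - 1) * omr_sq
  have h3 : (3 : eis) = lam * (-lam) := by linear_combination lam_sq
  obtain ⟨e, m, he, hm⟩ : ∃ e m : ℤ, (e = 0 ∨ e = 1 ∨ e = -1) ∧ x + y = e + 3 * m := by
    have h2 : (x + y) % 3 = 0 ∨ (x + y) % 3 = 1 ∨ (x + y) % 3 = 2 := by omega
    rcases h2 with h2 | h2 | h2
    · exact ⟨0, (x + y) / 3, Or.inl rfl, by omega⟩
    · exact ⟨1, (x + y) / 3, Or.inr (Or.inl rfl), by omega⟩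
    · exact ⟨-1, (x + y) / 3 + 1, Or.inr (Or.inr rfl), by omega⟩
  refine ⟨e, -lam * m + y * (-omr ^ 2), he, ?_⟩
  have h4 : (x : eis) + y = e + 3 * m := by exact_mod_cast hm
  linear_combination h4 + (m : eis) * h3 + (y : eis) * h1

/-- the real period is not divisible by `√-3` -/
lemma lam_ndvd (h4 : P_B4) {L : PeriodPair} {Ω : ℂ} (hC : CurM L Ω) {ω : ℝ}
    (h : IsRealPeriod L ω) {β : eis} (hβ : (ω : ℂ) = Ω * β) : ¬ lam ∣ β := by
  rintro ⟨γ, rfl⟩
  obtain ⟨⟨-, -, hd⟩, -⟩ := h4.2 L Ω hC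
  obtain ⟨e, δ, he, rfl⟩ := mod_lam γ
  have hl0 : (lam : ℂ) ≠ 0 := by
    intro h0
    have := lam_coe_sq
    rw [h0] at this
    norm_num at this
  have hw : ((ω / 3 : ℝ) : ℂ) = -((e : ℂ) * (Ω / lam)) + Ω * ((-δ : eis) : ℂ) := by
    have h5 : ((ω / 3 : ℝ) : ℂ) = (ω : ℂ) / 3 := by push_cast; rfl
    rw [h5, hβ]
    push_cast
    have h6 : (3 : ℂ) = -(lam : ℂ) ^ 2 := by rw [lam_coe_sq]; ring
    rw [h6]
    field_simp
    ring
  have hmem : Ω * ((-δ : eis) : ℂ) ∈ L.lattice := (hC.lat.mem _).2 ⟨-δ, rfl⟩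
  have hper : ℘'[L] ((ω / 3 : ℝ) : ℂ) = ℘'[L] (-((e : ℂ) * (Ω / lam))) := by
    rw [hw]
    exact L.derivWeierstrassP_add_coe _ ⟨_, hmem⟩
  rcases he with rfl | he
  · -- a smaller period
    have h7 : ((ω / 3 : ℝ) : ℂ) ∈ L.lattice := by
      rw [hw]
      simpa using hmem
    have h8 : ω ≤ ω / 3 := h.2 ⟨by have := h.1.1; positivity, h7⟩
    have := h.1.1
    linarith
  · have hsq : ℘'[L] ((ω / 3 : ℝ) : ℂ) ^ 2 = -4 := by
      rw [hper, L.derivWeierstrassP_neg, neg_sq]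
      rcases he with rfl | rfl
      · rw [Int.cast_one, one_mul]
        exact hd
      · rw [Int.cast_neg, Int.cast_one, neg_one_mul, L.derivWeierstrassP_neg, neg_sq]
        exact hd
    have hreal : (starRingEnd ℂ) (℘'[L] ((ω / 3 : ℝ) : ℂ)) = ℘'[L] ((ω / 3 : ℝ) : ℂ) := by
      rw [← Pool.Agent.H285R3.Str.P'_conj L (fun l hl => conj_stable hC.g2 hC.g3 hl),
        Complex.conj_ofReal]
    obtain ⟨r, hr⟩ := Complex.conj_eq_iff_real.1 hreal
    rw [hr] at hsq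
    have h9 : r ^ 2 = -4 := by exact_mod_cast hsq
    nlinarith [sq_nonneg r]

section val

variable {Γ : Type*} [LinearOrderedCommGroupWithZero Γ]

lemma v_one_of_ndvd {v : Valuation ℂ Γ} (hv : v 3 < 1) {β : eis} (h : ¬ lam ∣ β) :
    v (β : ℂ) = 1 := by
  obtain ⟨e, δ, he, rfl⟩ := mod_lam β
  have h1 : v ((lam * δ : eis) : ℂ) < 1 := by
    push_cast
    rw [map_mul]
    exact mul_lt_one_of_lt_of_le (v_lam_lt hv) (v_eis δ)
  have h2 : v ((e : eis) : ℂ) = 1 := by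
    rcases he with rfl | rfl | rfl
    · exact absurd ⟨δ, by push_cast; ring⟩ h
    · push_cast
      exact map_one v
    · push_cast
      rw [Valuation.map_neg, map_one]
  have h3 : (((e : eis) + lam * δ : eis) : ℂ) = ((e : eis) : ℂ) + ((lam * δ : eis) : ℂ) := by
    push_cast
    ring
  rw [h3, Valuation.map_add_eq_of_lt_left, h2]
  rw [h2]
  exact h1

/-- the valuation of the real period -/
lemma v_periodM (h4 : P_B4) {L : PeriodPair} {Ω : ℂ} (hC : CurM L Ω) {ω : ℝ}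
    (h : IsRealPeriod L ω) {v : Valuation ℂ Γ} (hv : v 3 < 1) : v Ω = v (ω : ℂ) := by
  obtain ⟨β, hβ⟩ := (hC.lat.mem _).1 h.1.2
  rw [hβ, map_mul, v_one_of_ndvd hv (lam_ndvd h4 hC h hβ), mul_one]

lemma v_periodM_conj (h4 : P_B4) {L : PeriodPair} {Ω : ℂ} (hC : CurM L Ω) {ω : ℝ}
    (h : IsRealPeriod L ω) {v : Valuation ℂ Γ} (hv : v 3 < 1) :
    v ((starRingEnd ℂ) Ω) = v (ω : ℂ) := by
  have := v_periodM h4 hC h (vc_three hv)
  rw [vc_apply, vc_apply, Complex.conj_ofReal] at this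
  exact this

end val

section
variable {k F : Type} [Field k] [NumberField k] [Field F] [NumberField F] [Algebra k F]
  {ι : eis →+* 𝓞 F} {G : Type} [CommGroup G] [Finite G]
  [MulSemiringAction G (𝓞 F)] {c : eis} {art : (eis ⧸ (sp c : Ideal eis))ˣ →* G}

lemma ydm_diff (v : HeightOneSpectrum (𝓞 F)) : Differentiable ℂ (ydm ι v) := by
  have hn : (nK v : ℂ) ≠ 0 := by
    have := two_le_nm v
    have h : nK v ≠ 0 := by unfold nK; omega
    exact_mod_cast h
  have h1 : Differentiable ℂ (fun s : ℂ => (nK v : ℂ) ^ (-s)) := by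
    intro z
    exact (differentiableAt_id.neg).const_cpow (Or.inl hn)
  unfold ydm
  exact (differentiable_const _).sub ((differentiable_const _).mul h1)

/-- the local factors above `c` are units at one -/
lemma v_ydm (h1B : P_B1) (h2B : P_B2) (D : DatM ι G c art) {P : HeightOneSpectrum eis}
    (hP : c ∈ P.asIdeal) (w : HeightOneSpectrum (𝓞 F)) (hw : bel ι w = P)
    {Γ : Type*} [LinearOrderedCommGroupWithZero Γ] {v : Valuation ℂ Γ}
    (hv : v 3 < 1) : v (ydm ι w 1) = 1 := by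
  obtain ⟨π, hπ, hπ2, h6⟩ := v_psim h1B D hP
  obtain ⟨f, hf0, hfG, hf⟩ := exists_deg D w
  have hfo : Odd f := by
    obtain ⟨n, hn⟩ := D.pgrp
    rw [hn] at hfG
    exact Odd.of_dvd_nat (Odd.pow (by decide)) hfG
  have h6w : (6 : 𝓞 F) ∉ w.asIdeal := by
    rw [six_iff (ι := ι), hw]
    exact h6
  obtain ⟨-, h5⟩ := pwm_val h1B h2B D h6w
  have hpw : pwm ι w = (π : ℂ) ^ f := by
    unfold pwm
    rw [fd_of hf, hw, hπ]
  have k4 := v_of_neg (vc_three hv) hπ2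
  rw [vc_apply] at k4
  have hπc0 : (starRingEnd ℂ) (π : ℂ) ≠ 0 := ne_of_v k4
  have hπ0 : (π : ℂ) ≠ 0 := (map_ne_zero (starRingEnd ℂ)).1 hπc0
  have h8 : ydm ι w 1 = (((starRingEnd ℂ) (π : ℂ)) ^ f - 1) / ((starRingEnd ℂ) (π : ℂ)) ^ f := by
    unfold ydm
    rw [Complex.cpow_neg_one, ← h5, hpw, map_pow]
    have e0 : (π : ℂ) ^ f ≠ 0 := pow_ne_zero _ hπ0
    have e1 : ((starRingEnd ℂ) (π : ℂ)) ^ f ≠ 0 := pow_ne_zero _ hπc0
    field_simp
  have k2 := v_pow_subM (vc_three hv) hπ2 hfo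
  rw [vc_apply, map_sub, map_pow, map_one] at k2
  rw [h8, map_div₀, map_pow, k2, k4]
  simp

/-- the analytic theorem -/
theorem analytic_k (h1B : P_B1) (h2B : P_B2) (h3B : P_B3) (h5B : P_B5) {τ : F ≃ₐ[k] F}
    (h2 : Module.finrank k F = 2) (hcj : ∀ a : eis, τ • ι a = ι (cj a)) (D : DatM ι G c art) :
    ∃ Lf : ℂ → ℂ, MeromorphicOn Lf Set.univ ∧
      (∀ s : ℂ, 3 / 2 < s.re → HasProd
        (fun w : HeightOneSpectrum (𝓞 k) => Pool.Agent.W2helper24.TQ.fac w s) (Lf s)) ∧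
      AnalyticAt ℂ Lf 1 ∧ Lf 1 ≠ 0 ∧
      ∀ (L : PeriodPair) (Ω : ℂ), CurM L Ω → ∀ (Γ : Type) [LinearOrderedCommGroupWithZero Γ]
        (v : Valuation ℂ Γ), v 3 < 1 → v (Lf 1) = v ((starRingEnd ℂ) Ω) ^ Nat.card G := by
  classical
  have hfinM : Finite (MulChar G ℂ) := inferInstance
  have : Fintype (MulChar G ℂ) := Fintype.ofFinite _
  have hH := fun χ : MulChar G ℂ => h3B c (eta art χ) D.c_ne D.cop2 D.cop3 (et_unitM D χ)
  choose Fx hFd hFs hFl using hH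
  have hcard : Fintype.card (MulChar G ℂ) = Nat.card G := by
    rw [← Nat.card_eq_fintype_card, MulChar.card_eq_card_units_of_hasEnoughRootsOfUnity]
    exact Nat.card_congr toUnits.symm.toEquiv
  set Lf : ℂ → ℂ := fun s => (∏ P ∈ Sc D.c_ne, ∏ v : {v : HeightOneSpectrum (𝓞 F) // bel ι v = P},
    ywm ι v.1 s) * ∏ χ, Fx χ s with hLf
  have hent : Differentiable ℂ (fun s => ∏ χ, Fx χ s) :=
    Differentiable.fun_finsetProd fun χ _ => hFd χ
  have hval : ∀ (L : PeriodPair) (Ω : ℂ), CurM L Ω → ∀ (Γ : Type)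
      [LinearOrderedCommGroupWithZero Γ] (v : Valuation ℂ Γ), v 3 < 1 →
      v (Lf 1) = v ((starRingEnd ℂ) Ω) ^ Nat.card G := by
    intro L Ω hC Γ _ v hv
    rw [hLf]
    simp only
    rw [map_mul, map_prod, map_prod]
    have h2 : ∀ P ∈ Sc D.c_ne, v (∏ w : {v : HeightOneSpectrum (𝓞 F) // bel ι v = P},
        ywm ι w.1 1) = 1 := by
      intro P hP
      rw [map_prod]
      refine Finset.prod_eq_one fun w _ => ?_
      unfold ywm
      rw [map_inv₀, v_ydm h1B h2B D ((mem_Sc D.c_ne).1 hP) w.1 w.2 hv, inv_one]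
    have h3 : ∀ χ ∈ (Finset.univ : Finset (MulChar G ℂ)), v (Fx χ 1) = v ((starRingEnd ℂ) Ω) := by
      intro χ _
      have h4 := v_FM h5B D χ hC (vc_three hv) (hFl χ L Ω hC.lat)
      rw [vc_apply, map_div₀, Complex.conj_conj, map_div₀] at h4
      have h5 : v ((starRingEnd ℂ) Ω) ≠ 0 := (Valuation.ne_zero_iff _).2 ((map_ne_zero _).2 hC.lat.ne)
      exact (div_eq_one_iff_eq h5).1 h4
    rw [Finset.prod_eq_one h2, one_mul, Finset.prod_congr rfl h3, Finset.prod_const,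
      Finset.card_univ, hcard]
  refine ⟨Lf, ?_, ?_, ?_, ?_, hval⟩
  · have h1 : MeromorphicOn (fun s => ∏ P ∈ Sc D.c_ne,
        ∏ v : {v : HeightOneSpectrum (𝓞 F) // bel ι v = P}, ywm ι v.1 s) Set.univ := by
      intro z _
      refine MeromorphicAt.fun_prod fun P _ => MeromorphicAt.fun_prod fun w _ => ?_
      exact ((ydm_diff w.1).analyticAt z).meromorphicAt.inv
    intro z hz
    exact (h1 z hz).mul ((hent.analyticAt z).meromorphicAt)
  · intro s hs
    exact lf_small h1B h2B h2 hcj D hFs hs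
  · have h1 : ∀ P ∈ Sc D.c_ne, ∀ w : {v : HeightOneSpectrum (𝓞 F) // bel ι v = P},
        ydm ι w.1 1 ≠ 0 := by
      intro P hP w
      obtain ⟨V, hV⟩ := exists_over_three
      exact ne_of_v (v_ydm h1B h2B D ((mem_Sc D.c_ne).1 hP) w.1 w.2 hV)
    refine AnalyticAt.mul ?_ (hent.analyticAt 1)
    refine Finset.analyticAt_fun_prod _ fun P hP => Finset.analyticAt_fun_prod _ fun w _ => ?_
    exact ((ydm_diff w.1).analyticAt 1).inv (h1 P hP w)
  · obtain ⟨V, hV⟩ := exists_over_three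
    obtain ⟨L, Ω, hC⟩ := exists_curM
    have h1 := hval _ Ω hC _ V.valuation hV
    intro h0
    rw [h0, map_zero] at h1
    exact pow_ne_zero _ ((Valuation.ne_zero_iff _).2 ((map_ne_zero _).2 hC.lat.ne)) h1.symm

end

/-! ## The number fields -/

section
variable {k F : Type} [Field k] [NumberField k] [Field F] [NumberField F] [Algebra k F]

/-- the nontrivial automorphism -/
lemma exists_tauM (h2 : Module.finrank k F = 2) (hns : ∀ x : k, x ^ 2 ≠ -3) {θ : F}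
    (hθ : θ ^ 2 = -3) : ∃ τ : F ≃ₐ[k] F, τ θ = -θ := by
  have hq : Algebra.IsQuadraticExtension k F := { finrank_eq_two' := h2 }
  have hg : IsGalois k F := inferInstance
  by_contra hcon
  push Not at hcon
  have hfix : ∀ τ : F ≃ₐ[k] F, τ θ = θ := by
    intro τ
    have h1 : (τ θ) ^ 2 = θ ^ 2 := by rw [← map_pow, hθ, map_neg, map_ofNat]
    rcases sq_eq_sq_iff_eq_or_eq_neg.1 h1 with h | h
    · exact h
    · exact absurd h (hcon τ)
  have h1 : θ ∈ (⊥ : IntermediateField k F) := by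
    rw [← IsGalois.fixedField_fixingSubgroup (⊥ : IntermediateField k F)]
    intro τ
    exact hfix τ.1
  obtain ⟨x, hx⟩ := IntermediateField.mem_bot.1 h1
  apply hns x
  apply (algebraMap k F).injective
  rw [map_pow, hx, hθ, map_neg, map_ofNat]

/-- the automorphism acts on the cube roots of unity as the conjugation -/
lemma exists_tau_cj {K : Type} [Field K] [NumberField K] [Algebra K F]
    (h2 : Module.finrank k F = 2) (hns : ∀ x : k, x ^ 2 ≠ -3) (e : 𝓞 K ≃+* eis) :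
    ∃ τ : F ≃ₐ[k] F, ∀ a : eis, τ • iF F e a = iF F e (cj a) := by
  set z : 𝓞 F := iF F e omr with hz
  have hz1 : z ^ 2 + z + 1 = 0 := by
    rw [hz, ← map_pow, ← map_add, ← map_one (iF F e), ← map_add, omr_sq, map_zero]
  have hz2 : ((z : 𝓞 F) : F) ^ 2 + (z : F) + 1 = 0 := by
    have := congrArg (fun t : 𝓞 F => (t : F)) hz1
    push_cast at this
    exact this
  have hθ : (2 * (z : F) + 1) ^ 2 = -3 := by linear_combination 4 * hz2
  obtain ⟨τ, hτ⟩ := exists_tauM h2 hns hθ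
  have hτz : τ (z : F) = (z : F) ^ 2 := by
    rw [map_add, map_mul, map_ofNat, map_one] at hτ
    have h20 : (2 : F) ≠ 0 := two_ne_zero
    have : 2 * (τ (z : F) - (z : F) ^ 2) = 0 := by linear_combination hτ - 2 * hz2
    exact sub_eq_zero.1 ((mul_eq_zero.1 this).resolve_left h20)
  refine ⟨τ, fun a => ?_⟩
  have hτz' : τ • z = z ^ 2 := by
    apply RingOfIntegers.ext
    have h1 : ((τ • z : 𝓞 F) : F) = τ (z : F) := rfl
    rw [h1, hτz]
    rfl
  obtain ⟨x, y, rfl⟩ := eis_rep a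
  have hcj : cj ((x : eis) + y * omr) = (x : eis) + y * omr ^ 2 := coe_inj' (by
    push_cast
    rw [cj_coe]
    push_cast
    rw [omr_coe, map_add, map_mul, conj_om, map_intCast, map_intCast])
  rw [hcj, map_add, map_mul, map_add, map_mul, map_pow, map_intCast, map_intCast, smul_add,
    smul_mul', ← hz, hτz']
  have hint : ∀ k : ℤ, τ • (k : 𝓞 F) = k := by
    intro k
    apply RingOfIntegers.ext
    have h1 : ((τ • (k : 𝓞 F) : 𝓞 F) : F) = τ ((k : 𝓞 F) : F) := rfl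
    rw [h1]
    push_cast
    exact map_intCast τ k
  rw [hint, hint]

end

/-- PIECE G1 -/
theorem pieceG1 (h1 : P_B1) (h2 : P_B2) (h3 : P_B3) (h4 : P_B4) (h5 : P_B5) : P_G1 := by
  intro K F k _ _ _ _ _ _ _ _ _ _ n hn c art hart hc h2k hns
  have h : Art c art := ⟨hart.surj, hart.unr, hart.frob⟩
  obtain ⟨hc0, hc6, hgood⟩ := hc
  have h6 : (6 : 𝓞 K) = 2 * 3 := by norm_num
  have hc2 : IsCoprime c 2 := by
    rw [h6] at hc6
    exact hc6.of_mul_right_left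
  have hc3 : IsCoprime c 3 := by
    rw [h6] at hc6
    exact hc6.of_mul_right_right
  let := commG h
  obtain ⟨ζ, hζ⟩ := IsCyclotomicExtension.exists_isPrimitiveRoot ℚ K
    (Set.mem_singleton 3) (by norm_num)
  obtain ⟨σ, hσ⟩ := exists_emb hζ
  obtain ⟨τ, hτ⟩ := exists_tau_cj h2k hns (isoE hζ σ hσ)
  obtain ⟨Lf, g1, g2, g3, g4, g5⟩ := analytic_k h1 h2 h3 h5 h2k hτ
    (mkDatM hn h (isoE hζ σ hσ) hc0 hc2 hc3 hgood)
  refine ⟨Lf, g1, g2, g3, g4, fun L ω hL2 hL3 hω Γ _ v hv => ?_⟩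
  obtain ⟨Ω, hC⟩ := curM_of h4 hL2 hL3
  have h7 := g5 L Ω hC Γ v hv
  have h8 : Nat.card Gal(F/K) = 3 ^ n := by rw [← hn]; exact IsGalois.card_aut_eq_finrank K F
  have h9 : Module.finrank ℚ k = 3 ^ n := by
    have hF2 : Module.finrank ℚ K = 2 := by
      rw [IsCyclotomicExtension.finrank (n := 3) K
        (Polynomial.cyclotomic.irreducible_rat (by norm_num))]
      rfl
    have e1 := Module.finrank_mul_finrank ℚ K F
    have e2 := Module.finrank_mul_finrank ℚ k F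
    rw [hF2, hn] at e1
    rw [h2k] at e2
    omega
  rw [h8, v_periodM_conj h4 hC hω hv] at h7
  have hω0 : v (ω : ℂ) ≠ 0 := (Valuation.ne_zero_iff _).2 (by exact_mod_cast hω.1.1.ne')
  rw [map_div₀, map_pow, h7, h9]
  exact div_self (pow_ne_zero _ hω0)

end Pool.Agent.W2helper73.TQ
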